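import Mathlib

/-!
Line arrangements in the real projective plane: generic lines and points.
-/

namespace Pool.Agent.Helper74.LineArr

open scoped LinearAlgebra.Projectivization
open Projectivization

/-- Points, and also lines, of the real projective plane, in homogeneous coordinates; the point
`p` lies on the line `l` when `p.orthogonal l`. -/
abbrev PP : Type := ℙ ℝ (Fin 3 → ℝ)

open scoped Classical in
/-- The number of lines of `A` through the point `p`. -/
noncomputable def mult (A : Finset PP) (p : PP) : ℕ :=
  (A.filter (fun l => p.orthogonal l)).card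

/-- The number of points of the plane lying on exactly `k` lines of `A`. -/
noncomputable def vnum (A : Finset PP) (k : ℕ) : ℕ := {p : PP | mult A p = k}.ncard

/-- The vector `v` (only its entries `v 2, ..., v (n-1)` matter) is the multiplicity vector of an
arrangement of `n` distinct lines without a common point. -/
def Realizable (n : ℕ) (v : ℕ → ℕ) : Prop :=
  ∃ A : Finset PP, A.card = n ∧ (∀ p : PP, ∃ l ∈ A, ¬ p.orthogonal l) ∧
    ∀ k, 2 ≤ k → k ≤ n - 1 → vnum A k = v k

lemma uniq {a b c d : PP} (hac : a.orthogonal c) (hbc : b.orthogonal c) (had : a.orthogonal d)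
    (hbd : b.orthogonal d) : a = b ∨ c = d :=
  Configuration.ofField.eq_or_eq_of_orthogonal hac hbc had hbd

/-- There are infinitely many lines through each point. -/
lemma infinite_lines (p : PP) : {l : PP | p.orthogonal l}.Infinite := by
  induction p using Projectivization.ind with | _ v hv =>
  -- an orthogonal pair of vectors orthogonal to `v`
  obtain ⟨u, hu⟩ : ∃ u : Fin 3 → ℝ, crossProduct v u ≠ 0 := by
    by_contra hcon
    push Not at hcon
    apply hv
    have h0 := hcon ![1, 0, 0]
    have h1 := hcon ![0, 1, 0]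
    rw [cross_apply] at h0 h1
    ext i
    fin_cases i
    · have := congrFun h1 2
      simpa using this
    · have := congrFun h0 2
      simpa using this
    · have := congrFun h0 1
      simpa using this
  set a := crossProduct v u with ha
  set b := crossProduct v a with hb
  have hva : v ⬝ᵥ a = 0 := dot_self_cross v u
  have hvb : v ⬝ᵥ b = 0 := dot_self_cross v a
  have hab : a ⬝ᵥ b = 0 := dot_cross_self v a
  have hpos : ∀ x : Fin 3 → ℝ, x ≠ 0 → 0 < x ⬝ᵥ x := by
    intro x hx
    have h1 : 0 ≤ x ⬝ᵥ x := by
      simp only [dotProduct, Fin.sum_univ_three]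
      nlinarith [mul_self_nonneg (x 0), mul_self_nonneg (x 1), mul_self_nonneg (x 2)]
    have h2 : x ⬝ᵥ x ≠ 0 := by
      rw [Ne, dotProduct_self_eq_zero]
      exact hx
    exact lt_of_le_of_ne h1 (Ne.symm h2)
  have haa := hpos a hu
  have hbb : 0 < b ⬝ᵥ b := by
    have h1 : b ⬝ᵥ b = (v ⬝ᵥ v) * (a ⬝ᵥ a) - (v ⬝ᵥ a) * (v ⬝ᵥ a) := by
      rw [hb, cross_apply]
      simp only [dotProduct, Fin.sum_univ_three]
      simp
      ring
    rw [h1, hva]
    have := mul_pos (hpos v hv) haa
    simpa using this
  have hne : ∀ t : ℝ, a + t • b ≠ 0 := by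
    intro t h
    have : a ⬝ᵥ (a + t • b) = 0 := by rw [h]; simp
    rw [dotProduct_add, dotProduct_smul, hab] at this
    simp at this
    exact haa.ne' (by simpa [dotProduct_self_eq_zero] using this)
  let f : ℝ → PP := fun t => mk ℝ (a + t • b) (hne t)
  have hf : Function.Injective f := by
    intro s t hst
    rw [mk_eq_mk_iff'] at hst
    obtain ⟨c, hc⟩ := hst
    have h1 : a ⬝ᵥ (c • (a + t • b)) = a ⬝ᵥ (a + s • b) := by rw [hc]
    have h2 : b ⬝ᵥ (c • (a + t • b)) = b ⬝ᵥ (a + s • b) := by rw [hc]
    have hba : b ⬝ᵥ a = 0 := by rw [dotProduct_comm]; exact hab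
    rw [dotProduct_smul, dotProduct_add, dotProduct_add, dotProduct_smul, dotProduct_smul, hab]
      at h1
    rw [dotProduct_smul, dotProduct_add, dotProduct_add, dotProduct_smul, dotProduct_smul, hba]
      at h2
    simp only [smul_eq_mul, mul_zero, add_zero, zero_add] at h1 h2
    have hc1 : c = 1 := by
      have : (c - 1) * (a ⬝ᵥ a) = 0 := by linarith
      rcases mul_eq_zero.mp this with h | h
      · linarith
      · exact absurd h haa.ne'
    rw [hc1] at h2
    have : (t - s) * (b ⬝ᵥ b) = 0 := by linarith
    rcases mul_eq_zero.mp this with h | h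
    · linarith
    · exact absurd h hbb.ne'
  refine (Set.infinite_range_of_injective hf).mono ?_
  rintro _ ⟨t, rfl⟩
  change (mk ℝ v hv).orthogonal (mk ℝ (a + t • b) (hne t))
  rw [orthogonal_mk, dotProduct_add, dotProduct_smul, hva, hvb]
  simp

/-- There are infinitely many points on each line. -/
lemma infinite_points (l : PP) : {p : PP | p.orthogonal l}.Infinite := by
  have := infinite_lines l
  simpa only [orthogonal_comm] using this

/-- A generic line through `p`. -/
lemma exists_line_through (p : PP) (S F : Finset PP) :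
    ∃ l : PP, p.orthogonal l ∧ l ∉ F ∧ ∀ q ∈ S, q ≠ p → ¬ q.orthogonal l := by
  classical
  obtain ⟨l, hl, hl'⟩ := ((infinite_lines p).sdiff
    ((F ∪ S.image (fun q => cross p q)).finite_toSet)).nonempty
  refine ⟨l, hl, ?_, ?_⟩
  · intro h
    exact hl' (by simp [h])
  · intro q hq hqp hql
    apply hl'
    have h1 : p.orthogonal (cross p q) := orthogonal_cross_left (Ne.symm hqp)
    have h2 : q.orthogonal (cross p q) := orthogonal_cross_right (Ne.symm hqp)
    have h3 : l = cross p q := by
      rcases uniq hl hql h1 h2 with h | h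
      · exact absurd h.symm hqp
      · exact h
    rw [Finset.mem_coe, Finset.mem_union, Finset.mem_image]
    exact Or.inr ⟨q, hq, h3.symm⟩

/-- A generic point off finitely many lines. -/
lemma exists_point_off (F S : Finset PP) :
    ∃ p : PP, p ∉ S ∧ ∀ l ∈ F, ¬ p.orthogonal l := by
  classical
  obtain ⟨q⟩ : Nonempty PP := inferInstance
  obtain ⟨l0, hl0, hF, -⟩ := exists_line_through q ∅ F
  -- a point of `l0` off the others
  obtain ⟨p, hp, hpS, hpF⟩ := exists_line_through l0 F S
  refine ⟨p, hpS, fun l hl h => ?_⟩
  have hne : l ≠ l0 := by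
    rintro rfl
    exact hF hl
  exact hpF l hl hne (by rw [orthogonal_comm]; exact h)

/-- A generic line off finitely many points. -/
lemma exists_line_off (S F : Finset PP) :
    ∃ l : PP, l ∉ F ∧ ∀ p ∈ S, ¬ p.orthogonal l := by
  obtain ⟨l, hl, h⟩ := exists_point_off S F
  exact ⟨l, hl, fun p hp h' => h p hp (by rw [orthogonal_comm]; exact h')⟩

open scoped Classical in
/-- The vertices: the points on at least two lines. -/
noncomputable def verts (A : Finset PP) : Finset PP :=
  A.offDiag.image (fun x => cross x.1 x.2)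

lemma mem_verts {A : Finset PP} {p : PP} : p ∈ verts A ↔ 2 ≤ mult A p := by
  classical
  unfold verts mult
  rw [Finset.mem_image]
  constructor
  · rintro ⟨⟨l, l'⟩, h, rfl⟩
    rw [Finset.mem_offDiag] at h
    obtain ⟨h1, h2, h3⟩ := h
    have : ({l, l'} : Finset PP) ⊆ A.filter (fun m => (cross l l').orthogonal m) := by
      intro m hm
      rw [Finset.mem_insert, Finset.mem_singleton] at hm
      rw [Finset.mem_filter]
      rcases hm with rfl | rfl
      · exact ⟨h1, cross_orthogonal_left h3⟩
      · exact ⟨h2, cross_orthogonal_right h3⟩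
    calc 2 = ({l, l'} : Finset PP).card := (Finset.card_pair h3).symm
      _ ≤ _ := Finset.card_le_card this
  · intro h
    obtain ⟨l, hl, l', hl', hne⟩ := Finset.one_lt_card.mp (show 1 < (A.filter (fun l => p.orthogonal l)).card by omega)
    rw [Finset.mem_filter] at hl hl'
    refine ⟨(l, l'), Finset.mem_offDiag.mpr ⟨hl.1, hl'.1, hne⟩, ?_⟩
    change cross l l' = p
    rcases uniq (cross_orthogonal_left hne) hl.2 (cross_orthogonal_right hne) hl'.2 with h | h
    · exact h
    · exact absurd h hne

open scoped Classical in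
lemma mult_insert {A : Finset PP} {l : PP} (hl : l ∉ A) (p : PP) :
    mult (insert l A) p = mult A p + if p.orthogonal l then 1 else 0 := by
  classical
  unfold mult
  rw [Finset.filter_insert]
  split_ifs with h
  · rw [Finset.card_insert_of_notMem]
    intro h'
    exact hl (Finset.mem_filter.mp h').1
  · rfl

lemma mult_le_card (A : Finset PP) (p : PP) : mult A p ≤ A.card := by
  classical
  exact Finset.card_filter_le _ _

/-- The set of points of a given multiplicity at least two is finite. -/
lemma finite_mult (A : Finset PP) {k : ℕ} (hk : 2 ≤ k) : {p : PP | mult A p = k}.Finite := by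
  refine (verts A).finite_toSet.subset ?_
  intro p hp
  rw [Set.mem_ofPred_eq] at hp
  rw [Finset.mem_coe, mem_verts]
  omega

open scoped Classical in
lemma vnum_eq_card (A : Finset PP) {k : ℕ} (hk : 2 ≤ k) :
    vnum A k = ((verts A).filter (fun p => mult A p = k)).card := by
  unfold vnum
  rw [← Set.ncard_coe_finset]
  congr 1
  ext p
  simp only [Set.mem_ofPred_eq, Finset.coe_filter, mem_verts]
  constructor
  · intro h
    exact ⟨by omega, h⟩
  · exact fun h => h.2

/-- Double counting of pairs of lines. -/
lemma sum_mult (A : Finset PP) :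
    ∑ p ∈ verts A, (mult A p).choose 2 = A.card.choose 2 := by
  classical
  have h1 : A.offDiag.card = ∑ p ∈ verts A,
      (A.offDiag.filter (fun x => cross x.1 x.2 = p)).card := by
    apply Finset.card_eq_sum_card_fiberwise
    intro x hx
    rw [Finset.mem_coe]
    exact Finset.mem_image_of_mem _ hx
  have h2 : ∀ p ∈ verts A, (A.offDiag.filter (fun x => cross x.1 x.2 = p)).card
      = mult A p * mult A p - mult A p := by
    intro p hp
    have : A.offDiag.filter (fun x => cross x.1 x.2 = p)
        = (A.filter (fun l => p.orthogonal l)).offDiag := by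
      ext ⟨l, l'⟩
      simp only [Finset.mem_filter, Finset.mem_offDiag]
      constructor
      · rintro ⟨⟨h1, h2, h3⟩, rfl⟩
        exact ⟨⟨h1, cross_orthogonal_left h3⟩, ⟨h2, cross_orthogonal_right h3⟩, h3⟩
      · rintro ⟨⟨h1, h4⟩, ⟨h2, h5⟩, h3⟩
        refine ⟨⟨h1, h2, h3⟩, ?_⟩
        rcases uniq (cross_orthogonal_left h3) h4 (cross_orthogonal_right h3) h5 with h | h
        · exact h
        · exact absurd h h3
    rw [this, Finset.offDiag_card]
    rfl
  rw [Finset.sum_congr rfl h2, Finset.offDiag_card] at h1
  have h3 : ∀ a : ℕ, a * a - a = 2 * a.choose 2 := by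
    intro a
    have h4 := Nat.triangle_succ (a - 1)
    rcases Nat.eq_zero_or_pos a with rfl | ha
    · rfl
    · have h5 : a.choose 2 = a * (a - 1) / 2 := Nat.choose_two_right a
      have h6 : 2 ∣ a * (a - 1) := by
        rcases Nat.even_or_odd a with h | h
        · exact Dvd.dvd.mul_right h.two_dvd _
        · exact Dvd.dvd.mul_left (by
            obtain ⟨c, hc⟩ := h
            exact ⟨c, by omega⟩) _
      rw [h5, Nat.mul_div_cancel' h6, Nat.mul_sub_one]
  simp only [h3] at h1
  rw [← Finset.mul_sum] at h1
  omega

/-- The identity satisfied by multiplicity vectors. -/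
lemma sum_choose_vnum (A : Finset PP) (hA : ∀ p : PP, ∃ l ∈ A, ¬ p.orthogonal l) :
    ∑ k ∈ Finset.Icc 2 (A.card - 1), k.choose 2 * vnum A k = A.card.choose 2 := by
  classical
  rw [← sum_mult A]
  have h1 : ∀ p ∈ verts A, mult A p ∈ Finset.Icc 2 (A.card - 1) := by
    intro p hp
    rw [Finset.mem_Icc]
    refine ⟨mem_verts.mp hp, ?_⟩
    obtain ⟨l, hl, hlp⟩ := hA p
    have : mult A p < A.card := by
      unfold mult
      apply Finset.card_lt_card
      rw [Finset.filter_ssubset]
      exact ⟨l, hl, hlp⟩
    omega
  rw [← Finset.sum_fiberwise_of_maps_to h1]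
  apply Finset.sum_congr rfl
  intro k hk
  rw [Finset.mem_Icc] at hk
  rw [vnum_eq_card A hk.1, Finset.sum_congr rfl (g := fun _ => k.choose 2)]
  · rw [Finset.sum_const, smul_eq_mul, mul_comm]
  · intro p hp
    rw [(Finset.mem_filter.mp hp).2]

lemma mult_lt_card {A : Finset PP} (hA : ∀ p : PP, ∃ l ∈ A, ¬ p.orthogonal l) (p : PP) :
    mult A p < A.card := by
  classical
  obtain ⟨l, hl, hlp⟩ := hA p
  unfold mult
  apply Finset.card_lt_card
  rw [Finset.filter_ssubset]
  exact ⟨l, hl, hlp⟩

lemma no_common_of_mult_lt {A : Finset PP} (h : ∀ p : PP, mult A p < A.card) :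
    ∀ p : PP, ∃ l ∈ A, ¬ p.orthogonal l := by
  classical
  intro p
  by_contra hcon
  push Not at hcon
  have : mult A p = A.card := by
    unfold mult
    rw [Finset.filter_true_of_mem hcon]
  have := h p
  omega

end Pool.Agent.Helper74.LineArr
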