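import Pool.Agent.Helper74.LineArr.Trig

/-!
Finite sets of parameters with a prescribed number of zero-sum triples.
-/

namespace Pool.Agent.Helper74.LineArr

open scoped Classical in
/-- Ordered pairs that complete to a zero-sum triple of distinct elements. -/
lemma six_mul_card_Zs {G : Type} [AddCommGroup G] (S : Finset G) :
    ((S ×ˢ S).filter (fun x : G × G => x.1 ≠ x.2 ∧ -(x.1 + x.2) ∈ S ∧ -(x.1 + x.2) ≠ x.1 ∧
      -(x.1 + x.2) ≠ x.2)).card = 6 * (Zs S).card := by
  rw [Finset.card_eq_sum_card_fiberwise (t := Zs S)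
    (f := fun x : G × G => ({x.1, x.2, -(x.1 + x.2)} : Finset G))]
  · rw [Finset.sum_congr rfl (g := fun _ => 6)]
    · rw [Finset.sum_const, smul_eq_mul, mul_comm]
    · intro s hs
      rw [mem_Zs] at hs
      obtain ⟨hsS, hs3, hs0⟩ := hs
      have : ((S ×ˢ S).filter (fun x : G × G => x.1 ≠ x.2 ∧ -(x.1 + x.2) ∈ S ∧
          -(x.1 + x.2) ≠ x.1 ∧ -(x.1 + x.2) ≠ x.2)).filter
          (fun x : G × G => ({x.1, x.2, -(x.1 + x.2)} : Finset G) = s) = s.offDiag := by
        ext ⟨g, h⟩
        simp only [Finset.mem_filter, Finset.mem_product, Finset.mem_offDiag]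
        constructor
        · rintro ⟨⟨⟨h1, h2⟩, h3, h4, h5, h6⟩, rfl⟩
          exact ⟨by simp, by simp, h3⟩
        · rintro ⟨h1, h2, h3⟩
          -- the third element
          have hc : ((s.erase g).erase h).card = 1 := by
            rw [Finset.card_erase_of_mem (Finset.mem_erase.mpr ⟨Ne.symm h3, h2⟩),
              Finset.card_erase_of_mem h1, hs3]
          obtain ⟨k, hk⟩ := Finset.card_eq_one.mp hc
          have hks : k ∈ (s.erase g).erase h := by rw [hk]; simp
          rw [Finset.mem_erase, Finset.mem_erase] at hks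
          have hsum : g + (h + k) = 0 := by
            rw [← hs0, ← Finset.add_sum_erase s _ h1,
              ← Finset.add_sum_erase (s.erase g) _ (Finset.mem_erase.mpr ⟨Ne.symm h3, h2⟩), hk,
              Finset.sum_singleton]
          have hkk : -(g + h) = k := by
            rw [neg_eq_iff_add_eq_zero]
            rw [← hsum]
            abel
          rw [hkk]
          refine ⟨⟨⟨hsS h1, hsS h2⟩, h3, hsS hks.2.2, hks.2.1, hks.1⟩, ?_⟩
          rw [← Finset.insert_erase h1, ← Finset.insert_erase (Finset.mem_erase.mpr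
            ⟨Ne.symm h3, h2⟩), hk]
      rw [this, Finset.offDiag_card, hs3]
  · intro x hx
    rw [Finset.mem_coe, Finset.mem_filter, Finset.mem_product] at hx
    rw [Finset.mem_coe, mem_Zs]
    obtain ⟨⟨h1, h2⟩, h3, h4, h5, h6⟩ := hx
    refine ⟨?_, ?_, ?_⟩
    · intro y hy
      simp only [Finset.mem_insert, Finset.mem_singleton] at hy
      rcases hy with rfl | rfl | rfl
      · exact h1
      · exact h2
      · exact h4
    · rw [Finset.card_eq_three]
      exact ⟨_, _, _, h3, Ne.symm h5, Ne.symm h6, rfl⟩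
    · rw [Finset.sum_insert (by
        rw [Finset.mem_insert, Finset.mem_singleton, not_or]
        exact ⟨h3, Ne.symm h5⟩), Finset.sum_pair (Ne.symm h6)]
      abel

/-- The number of zero-sum triples in `ZMod m`. -/
noncomputable def T (m : ℕ) [NeZero m] : ℕ := (Zs (Finset.univ : Finset (ZMod m))).card

lemma T_bounds (m : ℕ) [NeZero m] : m ^ 2 + 2 ≤ 6 * T m + 3 * m ∧
    6 * T m + 3 * m ≤ m ^ 2 + 6 := by
  classical
  unfold T
  have h6 : (((Finset.univ : Finset (ZMod m)) ×ˢ (Finset.univ : Finset (ZMod m))).filter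
      (fun x : ZMod m × ZMod m => x.1 ≠ x.2 ∧ -(x.1 + x.2) ∈ (Finset.univ : Finset (ZMod m)) ∧
        -(x.1 + x.2) ≠ x.1 ∧ -(x.1 + x.2) ≠ x.2)).card
      = 6 * (Zs (Finset.univ : Finset (ZMod m))).card := by
    convert six_mul_card_Zs (Finset.univ : Finset (ZMod m))
  rw [← h6]
  set D : Finset (ZMod m × ZMod m) := (Finset.univ.filter (fun x : ZMod m => x + x + x = 0)).image
    (fun x => (x, x)) with hD
  set A₁ : Finset (ZMod m × ZMod m) := Finset.univ.image (fun x => (x, x)) with hA₁
  set A₂ : Finset (ZMod m × ZMod m) := Finset.univ.image (fun x => (x, -(x + x))) with hA₂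
  set A₃ : Finset (ZMod m × ZMod m) := Finset.univ.image (fun x => (-(x + x), x)) with hA₃
  have c₁ : A₁.card = m := by
    rw [hA₁, Finset.card_image_of_injective _ (fun x y h => (Prod.ext_iff.mp h).1),
      Finset.card_univ, ZMod.card]
  have c₂ : A₂.card = m := by
    rw [hA₂, Finset.card_image_of_injective _ (fun x y h => (Prod.ext_iff.mp h).1),
      Finset.card_univ, ZMod.card]
  have c₃ : A₃.card = m := by
    rw [hA₃, Finset.card_image_of_injective _ (fun x y h => (Prod.ext_iff.mp h).2),
      Finset.card_univ, ZMod.card]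
  have d1 : A₁ ∩ A₂ = D := by
    ext ⟨x, y⟩
    simp only [hA₁, hA₂, hD, Finset.mem_inter, Finset.mem_image, Finset.mem_univ, true_and,
      Finset.mem_filter, Prod.mk.injEq, exists_eq_left]
    constructor
    · rintro ⟨rfl, h⟩
      refine ⟨x, ?_, rfl, rfl⟩
      rw [← neg_eq_iff_add_eq_zero]
      exact h
    · rintro ⟨z, hz, rfl, rfl⟩
      refine ⟨rfl, ?_⟩
      rw [neg_eq_iff_add_eq_zero, hz]
  have d2 : (A₁ ∪ A₂) ∩ A₃ = D := by
    ext ⟨x, y⟩
    simp only [hA₁, hA₂, hA₃, hD, Finset.mem_inter, Finset.mem_union, Finset.mem_image,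
      Finset.mem_univ, true_and, Finset.mem_filter, Prod.mk.injEq, exists_eq_left,
      exists_eq_right]
    constructor
    · rintro ⟨rfl | h, h'⟩
      · refine ⟨x, ?_, rfl, rfl⟩
        rw [← neg_eq_iff_add_eq_zero]
        exact h'
      · -- y = -2x, x = -2y
        have e1 : x + x + y = 0 := by
          rw [← neg_eq_iff_add_eq_zero]
          exact h
        have e2 : y + y + x = 0 := by
          rw [← neg_eq_iff_add_eq_zero]
          exact h'
        have e3 : x = y := by
          have : x + (x + y) = y + (x + y) := by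
            rw [show x + (x + y) = x + x + y by abel, show y + (x + y) = y + y + x by abel, e1, e2]
          exact add_right_cancel this
        subst e3
        exact ⟨x, e1, rfl, rfl⟩
    · rintro ⟨z, hz, rfl, rfl⟩
      refine ⟨Or.inl rfl, ?_⟩
      rw [neg_eq_iff_add_eq_zero, hz]
  have cD : D.card = (Finset.univ.filter (fun x : ZMod m => x + x + x = 0)).card := by
    rw [hD, Finset.card_image_of_injective _ (fun x y h => (Prod.ext_iff.mp h).1)]
  have k1 : 1 ≤ D.card := by
    rw [cD, Nat.one_le_iff_ne_zero, Finset.card_ne_zero]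
    exact ⟨0, by simp⟩
  have k2 : D.card ≤ 3 := by
    rw [cD]
    have h3 := IsAddCyclic.card_nsmul_eq_zero_le (α := ZMod m) (n := 3) (by norm_num)
    refine le_trans (Finset.card_le_card ?_) h3
    intro x hx
    rw [Finset.mem_filter] at hx ⊢
    refine ⟨hx.1, ?_⟩
    rw [succ_nsmul, two_nsmul]
    exact hx.2
  have u1 := Finset.card_union_add_card_inter A₁ A₂
  have u2 := Finset.card_union_add_card_inter (A₁ ∪ A₂) A₃
  rw [d1] at u1
  rw [d2] at u2
  have hcomp : ((Finset.univ : Finset (ZMod m)) ×ˢ (Finset.univ : Finset (ZMod m))).filter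
      (fun x : ZMod m × ZMod m => x.1 ≠ x.2 ∧ -(x.1 + x.2) ∈ (Finset.univ : Finset (ZMod m)) ∧
        -(x.1 + x.2) ≠ x.1 ∧ -(x.1 + x.2) ≠ x.2) = ((A₁ ∪ A₂) ∪ A₃)ᶜ := by
    ext ⟨x, y⟩
    simp only [hA₁, hA₂, hA₃, Finset.mem_filter, Finset.mem_product, Finset.mem_univ, true_and,
      Finset.mem_compl, Finset.mem_union, Finset.mem_image, not_or, Prod.mk.injEq, exists_eq_left,
      exists_eq_right]
    have e1 : -(x + y) = x ↔ -(x + x) = y := by
      rw [neg_eq_iff_add_eq_zero, neg_eq_iff_add_eq_zero, show x + y + x = x + x + y by abel]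
    have e2 : -(x + y) = y ↔ -(y + y) = x := by
      rw [neg_eq_iff_add_eq_zero, neg_eq_iff_add_eq_zero, show x + y + y = y + y + x by abel]
    rw [Ne, Ne, Ne, e1, e2]
    tauto
  rw [hcomp, Finset.card_compl, Fintype.card_prod, ZMod.card]
  have hle : (A₁ ∪ A₂ ∪ A₃).card ≤ m * m := by
    refine (Finset.card_le_univ _).trans ?_
    rw [Fintype.card_prod, ZMod.card]
  have hsq : m ^ 2 = m * m := sq m
  omega

/-- Parameter sets with `n` elements and `t` zero-sum triples. -/
def Good (m n t : ℕ) : Prop :=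
  ∃ S : Finset (ZMod m × ℤ), ∃ c : ℤ, (∀ s ∈ S, |s.2| ≤ c) ∧ (∀ a, (a, (0 : ℤ)) ∈ S) ∧
    S.card = n ∧ (Zs S).card = t

lemma good_base (m : ℕ) [NeZero m] : Good m m (T m) := by
  classical
  let f : ZMod m → ZMod m × ℤ := fun a => (a, 0)
  have hf : Function.Injective f := fun x y h => (Prod.ext_iff.mp h).1
  refine ⟨Finset.univ.image f, 0, ?_, ?_, ?_, ?_⟩
  · intro s hs
    obtain ⟨a, -, rfl⟩ := Finset.mem_image.mp hs
    simp [f]
  · intro a
    exact Finset.mem_image_of_mem f (Finset.mem_univ a)
  · rw [Finset.card_image_of_injective _ hf, Finset.card_univ, ZMod.card]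
  · unfold T
    symm
    apply Finset.card_bij (fun s _ => s.image f)
    · intro s hs
      rw [mem_Zs] at hs ⊢
      obtain ⟨h1, h2, h3⟩ := hs
      refine ⟨Finset.image_subset_image h1, ?_, ?_⟩
      · rw [Finset.card_image_of_injective _ hf, h2]
      · rw [Finset.sum_image (fun _ _ _ _ h => hf h)]
        ext1
        · rw [Prod.fst_sum]
          simpa [f] using h3
        · rw [Prod.snd_sum]
          simp [f]
    · intro s _ s' _ h
      exact Finset.image_injective hf h
    · intro s hs
      rw [mem_Zs] at hs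
      obtain ⟨h1, h2, h3⟩ := hs
      obtain ⟨u, hu⟩ := Finset.subset_univ_image_iff.mp h1
      refine ⟨u, ?_, hu⟩
      rw [mem_Zs]
      refine ⟨Finset.subset_univ _, ?_, ?_⟩
      · rw [← h2, ← hu, Finset.card_image_of_injective _ hf]
      · rw [← hu, Finset.sum_image (fun _ _ _ _ h => hf h)] at h3
        have := congrArg Prod.fst h3
        rw [Prod.fst_sum] at this
        simpa [f] using this

lemma good_step {m n t : ℕ} [NeZero m] (h : Good m n t) {p q : ℕ} (hp : p ≤ m) (hq : q ≤ m) :
    Good m (n + p + q) (t + p * q) := by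
  classical
  obtain ⟨S, c, hS1, hS2, hS3, hS4⟩ := h
  have hc0 : 0 ≤ c := by
    have := hS1 _ (hS2 0)
    simpa using this
  obtain ⟨X, -, hX⟩ := Finset.exists_subset_card_eq (s := (Finset.univ : Finset (ZMod m)))
    (n := p) (by rw [Finset.card_univ, ZMod.card]; exact hp)
  obtain ⟨Y, -, hY⟩ := Finset.exists_subset_card_eq (s := (Finset.univ : Finset (ZMod m)))
    (n := q) (by rw [Finset.card_univ, ZMod.card]; exact hq)
  obtain ⟨C, hC⟩ : ∃ C : ℤ, C = 2 * c + 1 := ⟨_, rfl⟩
  let fP : ZMod m → ZMod m × ℤ := fun x => (x, C)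
  let fQ : ZMod m → ZMod m × ℤ := fun x => (x, -C)
  have hfP : Function.Injective fP := fun x y h => (Prod.ext_iff.mp h).1
  have hfQ : Function.Injective fQ := fun x y h => (Prod.ext_iff.mp h).1
  have memP : ∀ g, g ∈ X.image fP ↔ g.1 ∈ X ∧ g.2 = C := by
    intro g
    rw [Finset.mem_image]
    constructor
    · rintro ⟨x, hx, rfl⟩
      exact ⟨hx, rfl⟩
    · rintro ⟨h1, h2⟩
      exact ⟨g.1, h1, Prod.ext rfl h2.symm⟩
  have memQ : ∀ g, g ∈ Y.image fQ ↔ g.1 ∈ Y ∧ g.2 = -C := by
    intro g
    rw [Finset.mem_image]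
    constructor
    · rintro ⟨x, hx, rfl⟩
      exact ⟨hx, rfl⟩
    · rintro ⟨h1, h2⟩
      exact ⟨g.1, h1, Prod.ext rfl h2.symm⟩
  have hSb : ∀ s ∈ S, -c ≤ s.2 ∧ s.2 ≤ c := fun s hs => abs_le.mp (hS1 s hs)
  have dSP : Disjoint S (X.image fP) := by
    rw [Finset.disjoint_left]
    intro g hg hg'
    have h1 := hSb g hg
    have h2 := ((memP g).mp hg').2
    omega
  have dSPQ : Disjoint (S ∪ X.image fP) (Y.image fQ) := by
    rw [Finset.disjoint_left]
    intro g hg hg'
    have h2 := ((memQ g).mp hg').2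
    rw [Finset.mem_union] at hg
    rcases hg with hg | hg
    · have h1 := hSb g hg
      omega
    · have h1 := ((memP g).mp hg).2
      omega
  let tri : ZMod m × ZMod m → Finset (ZMod m × ℤ) :=
    fun z => {(z.1, C), (z.2, -C), (-(z.1 + z.2), 0)}
  have ne1 : ∀ z : ZMod m × ZMod m, ((z.1, C) : ZMod m × ℤ) ≠ (z.2, -C) := by
    intro z h
    have := (Prod.ext_iff.mp h).2
    simp only at this
    omega
  have ne2 : ∀ z : ZMod m × ZMod m, ((z.1, C) : ZMod m × ℤ) ≠ (-(z.1 + z.2), 0) := by
    intro z h
    have := (Prod.ext_iff.mp h).2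
    simp only at this
    omega
  have ne3 : ∀ z : ZMod m × ZMod m, ((z.2, -C) : ZMod m × ℤ) ≠ (-(z.1 + z.2), 0) := by
    intro z h
    have := (Prod.ext_iff.mp h).2
    simp only at this
    omega
  have htri : ∀ g h k : ZMod m × ℤ, g.2 = C → h.2 = -C → g + h + k = 0 →
      tri (g.1, h.1) = {g, h, k} := by
    intro g h k hg hh hk
    have e1 : ((g.1, C) : ZMod m × ℤ) = g := Prod.ext rfl hg.symm
    have e2 : ((h.1, -C) : ZMod m × ℤ) = h := Prod.ext rfl hh.symm
    have e3 : ((-(g.1 + h.1), 0) : ZMod m × ℤ) = k := by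
      have : k = -(g + h) := by
        rw [eq_neg_iff_add_eq_zero, ← hk]
        abel
      rw [this]
      ext1
      · rfl
      · change (0 : ℤ) = -(g.2 + h.2)
        omega
    change ({(g.1, C), (h.1, -C), (-(g.1 + h.1), 0)} : Finset (ZMod m × ℤ)) = _
    rw [e1, e2, e3]
  have hinj : Function.Injective tri := by
    intro z z' hzz
    have h1 : ((z.1, C) : ZMod m × ℤ) ∈ tri z' := by
      rw [← hzz]
      simp [tri]
    have h2 : ((z.2, -C) : ZMod m × ℤ) ∈ tri z' := by
      rw [← hzz]
      simp [tri]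
    simp only [tri, Finset.mem_insert, Finset.mem_singleton, Prod.mk.injEq] at h1 h2
    have f1 : z.1 = z'.1 := by
      rcases h1 with h | h | h
      · exact h.1
      · omega
      · omega
    have f2 : z.2 = z'.2 := by
      rcases h2 with h | h | h
      · omega
      · exact h.1
      · omega
    exact Prod.ext f1 f2
  have hZ : Zs (S ∪ X.image fP ∪ Y.image fQ) = Zs S ∪ (X ×ˢ Y).image tri := by
    ext s
    rw [Finset.mem_union]
    constructor
    · intro hs
      rw [mem_Zs] at hs
      obtain ⟨h1, h2, h3⟩ := hs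
      obtain ⟨g, h, k, n1, n2, n3, rfl⟩ := Finset.card_eq_three.mp h2
      rw [Finset.sum_insert (by simp [n1, n2]), Finset.sum_pair n3, ← add_assoc] at h3
      have cls : ∀ x ∈ ({g, h, k} : Finset (ZMod m × ℤ)), (x ∈ S ∧ -c ≤ x.2 ∧ x.2 ≤ c) ∨
          (x.1 ∈ X ∧ x.2 = C) ∨ (x.1 ∈ Y ∧ x.2 = -C) := by
        intro x hx
        have := h1 hx
        rw [Finset.mem_union, Finset.mem_union, memP, memQ] at this
        rcases this with (h | h) | h
        · exact Or.inl ⟨h, hSb x h⟩
        · exact Or.inr (Or.inl h)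
        · exact Or.inr (Or.inr h)
      have cg := cls g (by simp)
      have ch := cls h (by simp)
      have ck := cls k (by simp)
      have s2 : g.2 + h.2 + k.2 = 0 := by
        have := congrArg Prod.snd h3
        simpa using this
      have pr : ∀ a b d : ZMod m × ℤ, a.1 ∈ X → a.2 = C → b.1 ∈ Y → b.2 = -C →
          a + b + d = 0 → ({g, h, k} : Finset (ZMod m × ℤ)) = {a, b, d} →
          ({g, h, k} : Finset (ZMod m × ℤ)) ∈ (X ×ˢ Y).image tri := by
        intro a b d i1 i2 i3 i4 i5 i6
        rw [i6, Finset.mem_image]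
        exact ⟨(a.1, b.1), Finset.mem_product.mpr ⟨i1, i3⟩, htri a b d i2 i4 i5⟩
      rcases cg with ⟨cg, cg'⟩ | cg | cg <;> rcases ch with ⟨ch, ch'⟩ | ch | ch <;>
        rcases ck with ⟨ck, ck'⟩ | ck | ck
      · left
        rw [mem_Zs]
        refine ⟨?_, h2, ?_⟩
        · intro x hx
          simp only [Finset.mem_insert, Finset.mem_singleton] at hx
          rcases hx with rfl | rfl | rfl
          · exact cg
          · exact ch
          · exact ck
        · rw [Finset.sum_insert (by simp [n1, n2]), Finset.sum_pair n3, ← add_assoc, h3]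
      · exfalso; omega
      · exfalso; omega
      · exfalso; omega
      · exfalso; omega
      · -- S P Q
        right
        exact pr h k g ch.1 ch.2 ck.1 ck.2 (by rw [← h3]; abel) (by
          ext x; simp only [Finset.mem_insert, Finset.mem_singleton]; tauto)
      · exfalso; omega
      · right
        exact pr k h g ck.1 ck.2 ch.1 ch.2 (by rw [← h3]; abel) (by
          ext x; simp only [Finset.mem_insert, Finset.mem_singleton]; tauto)
      · exfalso; omega
      · exfalso; omega
      · exfalso; omega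
      · right
        exact pr g k h cg.1 cg.2 ck.1 ck.2 (by rw [← h3]; abel) (by
          ext x; simp only [Finset.mem_insert, Finset.mem_singleton]; tauto)
      · exfalso; omega
      · exfalso; omega
      · exfalso; omega
      · right
        exact pr g h k cg.1 cg.2 ch.1 ch.2 h3 rfl
      · exfalso; omega
      · exfalso; omega
      · exfalso; omega
      · right
        exact pr k g h ck.1 ck.2 cg.1 cg.2 (by rw [← h3]; abel) (by
          ext x; simp only [Finset.mem_insert, Finset.mem_singleton]; tauto)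
      · exfalso; omega
      · right
        exact pr h g k ch.1 ch.2 cg.1 cg.2 (by rw [← h3]; abel) (by
          ext x; simp only [Finset.mem_insert, Finset.mem_singleton]; tauto)
      · exfalso; omega
      · exfalso; omega
      · exfalso; omega
      · exfalso; omega
      · exfalso; omega
    · rintro (hs | hs)
      · rw [mem_Zs] at hs ⊢
        exact ⟨hs.1.trans (Finset.subset_union_left.trans Finset.subset_union_left), hs.2⟩
      · obtain ⟨z, hz, rfl⟩ := Finset.mem_image.mp hs
        rw [Finset.mem_product] at hz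
        rw [mem_Zs]
        refine ⟨?_, ?_, ?_⟩
        · intro x hx
          simp only [tri, Finset.mem_insert, Finset.mem_singleton] at hx
          rw [Finset.mem_union, Finset.mem_union, memP, memQ]
          rcases hx with rfl | rfl | rfl
          · exact Or.inl (Or.inr ⟨hz.1, rfl⟩)
          · exact Or.inr ⟨hz.2, rfl⟩
          · exact Or.inl (Or.inl (hS2 _))
        · rw [Finset.card_eq_three]
          exact ⟨_, _, _, ne1 z, ne2 z, ne3 z, rfl⟩
        · change ∑ x ∈ ({(z.1, C), (z.2, -C), (-(z.1 + z.2), 0)} : Finset (ZMod m × ℤ)), x = 0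
          rw [Finset.sum_insert (by
            rw [Finset.mem_insert, Finset.mem_singleton, not_or]
            exact ⟨ne1 z, ne2 z⟩), Finset.sum_pair (ne3 z)]
          ext1
          · simp
          · simp
  refine ⟨S ∪ X.image fP ∪ Y.image fQ, C, ?_, ?_, ?_, ?_⟩
  · intro s hs
    rw [Finset.mem_union, Finset.mem_union, memP, memQ] at hs
    rw [abs_le]
    rcases hs with (hs | hs) | hs
    · have := hSb s hs
      omega
    · omega
    · omega
  · intro a
    exact Finset.mem_union_left _ (Finset.mem_union_left _ (hS2 a))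
  · rw [Finset.card_union_of_disjoint dSPQ, Finset.card_union_of_disjoint dSP, hS3,
      Finset.card_image_of_injective _ hfP, Finset.card_image_of_injective _ hfQ, hX, hY]
  · rw [hZ, Finset.card_union_of_disjoint, hS4, Finset.card_image_of_injective _ hinj,
      Finset.card_product, hX, hY]
    rw [Finset.disjoint_left]
    intro s hs hs'
    obtain ⟨z, hz, rfl⟩ := Finset.mem_image.mp hs'
    rw [mem_Zs] at hs
    have : ((z.1, C) : ZMod m × ℤ) ∈ S := hs.1 (by simp [tri])
    have := hSb _ this
    simp only at this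
    omega

lemma good_singles {m n t : ℕ} [NeZero m] (h : Good m n t) (s : ℕ) : Good m (n + s) t := by
  induction s with
  | zero => exact h
  | succ s ih =>
    have := good_step ih (p := 1) (q := 0) (Nat.one_le_iff_ne_zero.mpr (NeZero.ne m))
      (Nat.zero_le _)
    simpa [add_assoc] using this

/-- All values `t` in the range are attained. -/
lemma good_of {m n t : ℕ} [NeZero m] (h1 : T m ≤ t) (h2 : 3 * (t - T m) ≤ m)
    (h3 : m + 4 * Nat.sqrt (t - T m) + 1 ≤ n) : Good m n t := by
  set g := t - T m with hg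
  have hs1 : Nat.sqrt g * Nat.sqrt g ≤ g := Nat.sqrt_le g
  have hs2 : g ≤ Nat.sqrt g * Nat.sqrt g + 2 * Nat.sqrt g := by
    have := Nat.sqrt_le_add g
    omega
  set p := Nat.sqrt g with hp
  have hm0 : 0 < m := Nat.pos_of_ne_zero (NeZero.ne m)
  have hp2 : 2 * p ≤ m := by
    rcases Nat.eq_zero_or_pos p with h | h
    · omega
    · nlinarith
  have a1 := good_step (good_base m) (p := p) (q := p) (by omega) (by omega)
  have a2 := good_step a1 (p := g - p * p) (q := 1) (by omega) (by omega)
  have a3 := good_singles a2 (n - (m + p + p + (g - p * p) + 1))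
  have e1 : m + p + p + (g - p * p) + 1 + (n - (m + p + p + (g - p * p) + 1)) = n := by omega
  have e2 : T m + p * p + (g - p * p) * 1 = t := by omega
  rwa [e1, e2] at a3

end Pool.Agent.Helper74.LineArr
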