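import Pool.Agent.Helper74.LineArr.Few

/-!
Arrangements with few multiple points, deficient case.
-/

namespace Pool.Agent.Helper74.LineArr

open scoped LinearAlgebra.Projectivization
open Projectivization

/-- Add a new point on the line `l` of `A`, generic on `l`, joined to the points of `J`. -/
lemma add_point_on (A S J : Finset PP) (hJ : J ⊆ S) (l : PP) (hl : l ∈ A)
    (hJl : ∀ q ∈ J, ¬ q.orthogonal l) : ∃ P : PP, ∃ A' : Finset PP, P ∉ S ∧
    mult A P = 1 ∧ A'.card = A.card + J.card ∧ mult A' P = J.card + 1 ∧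
    (∀ q ∈ J, mult A' q = mult A q + 1) ∧ (∀ q ∈ S, q ∉ J → mult A' q = mult A q) ∧
    (∀ q, q ∉ J → q ≠ P → mult A' q = mult A q ∨ mult A' q ≤ 2) := by
  classical
  set V := S ∪ verts A with hV
  obtain ⟨P, hPl, hPV, hPF⟩ := exists_line_through l (A ∪ V.offDiag.image (fun x => cross x.1 x.2)) V
  have hPl' : P.orthogonal l := by
    rw [orthogonal_comm]
    exact hPl
  have hPA : ∀ l' ∈ A, l' ≠ l → ¬ P.orthogonal l' := by
    intro l' hl' hne h
    exact hPF l' (Finset.mem_union_left _ hl') hne (by rw [orthogonal_comm]; exact h)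
  have hJV : ∀ q ∈ J, q ∈ V := fun q hq => Finset.mem_union_left _ (hJ hq)
  have hPj : ∀ x ∈ V, ∀ y ∈ J, x ≠ y → ∀ l, x.orthogonal l → y.orthogonal l →
      ¬ P.orthogonal l := by
    intro x hx y hy hxy l' hxl hyl hPl''
    have hl'l : l' ≠ l := by
      rintro rfl
      exact hJl y hy hyl
    apply hPF (cross x y)
    · apply Finset.mem_union_right
      exact Finset.mem_image.mpr ⟨(x, y), Finset.mem_offDiag.mpr ⟨hx, hJV y hy, hxy⟩, rfl⟩
    · rintro h
      rcases uniq hxl hyl (orthogonal_cross_left hxy) (orthogonal_cross_right hxy) with h' | h'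
      · exact absurd h' hxy
      · exact hl'l (h'.trans h)
    · rcases uniq hxl hyl (orthogonal_cross_left hxy) (orthogonal_cross_right hxy) with h | h
      · exact absurd h hxy
      · rw [← h, orthogonal_comm]
        exact hPl''
  have hPne : ∀ q ∈ V, P ≠ q := by
    rintro q hq rfl
    exact hPV hq
  have hinj : Set.InjOn (fun q => cross P q) (J : Set PP) := by
    intro q hq q' hq' h
    by_contra hne
    simp only at h
    refine hPj q (hJV q hq) q' hq' hne (cross P q) ?_ ?_ ?_
    · exact orthogonal_cross_right (hPne q (hJV q hq))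
    · rw [h]
      exact orthogonal_cross_right (hPne q' (hJV q' hq'))
    · exact orthogonal_cross_left (hPne q (hJV q hq))
  have hdis : Disjoint A (J.image (fun q => cross P q)) := by
    rw [Finset.disjoint_left]
    intro l' hl1 hl2
    obtain ⟨q, hq, rfl⟩ := Finset.mem_image.mp hl2
    by_cases h : cross P q = l
    · apply hJl q hq
      rw [← h]
      exact orthogonal_cross_right (hPne q (hJV q hq))
    · exact hPA _ hl1 h (orthogonal_cross_left (hPne q (hJV q hq)))
  have hmult : ∀ x : PP, mult (A ∪ J.image (fun q => cross P q)) x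
      = mult A x + (J.filter (fun q => x.orthogonal (cross P q))).card := by
    intro x
    unfold mult
    rw [Finset.filter_union, Finset.card_union_of_disjoint]
    · congr 1
      rw [Finset.filter_image, Finset.card_image_of_injOn]
      intro q hq q' hq' h
      apply hinj _ _ h
      · exact (Finset.mem_filter.mp hq).1
      · exact (Finset.mem_filter.mp hq').1
    · exact Finset.disjoint_filter_filter hdis
  have hVoff : ∀ x ∈ V, x ∉ J → J.filter (fun q => x.orthogonal (cross P q)) = ∅ := by
    intro x hx hxJ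
    rw [Finset.filter_eq_empty_iff]
    intro q hq hxq
    have hne : x ≠ q := by
      rintro rfl
      exact hxJ hq
    exact hPj x hx q hq hne _ hxq (orthogonal_cross_right (hPne q (hJV q hq)))
      (orthogonal_cross_left (hPne q (hJV q hq)))
  have hmP : mult A P = 1 := by
    unfold mult
    rw [Finset.card_eq_one]
    refine ⟨l, ?_⟩
    ext l'
    simp only [Finset.mem_filter, Finset.mem_singleton]
    constructor
    · rintro ⟨h1, h2⟩
      by_contra hne
      exact hPA l' h1 hne h2
    · rintro rfl
      exact ⟨hl, hPl'⟩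
  refine ⟨P, A ∪ J.image (fun q => cross P q), ?_, hmP, ?_, ?_, ?_, ?_, ?_⟩
  · exact fun h => hPV (Finset.mem_union_left _ h)
  · rw [Finset.card_union_of_disjoint hdis, Finset.card_image_of_injOn hinj]
  · rw [hmult, hmP, add_comm, Finset.filter_true_of_mem]
    intro q hq
    exact orthogonal_cross_left (hPne q (hJV q hq))
  · intro q hq
    rw [hmult]
    congr 1
    rw [Finset.card_eq_one]
    refine ⟨q, ?_⟩
    ext q'
    simp only [Finset.mem_filter, Finset.mem_singleton]
    constructor
    · rintro ⟨hq', h⟩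
      by_contra hne
      exact hPj q (hJV q hq) q' hq' (Ne.symm hne) _ h
        (orthogonal_cross_right (hPne q' (hJV q' hq')))
        (orthogonal_cross_left (hPne q' (hJV q' hq')))
    · rintro rfl
      exact ⟨hq, orthogonal_cross_right (hPne q' (hJV q' hq))⟩
  · intro q hq hqJ
    rw [hmult, hVoff q (Finset.mem_union_left _ hq) hqJ]
    rfl
  · intro q hqJ hqP
    by_cases hqV : q ∈ V
    · left
      rw [hmult, hVoff q hqV hqJ]
      rfl
    · right
      rw [hmult]
      have h1 : mult A q ≤ 1 := by
        have : q ∉ verts A := fun h => hqV (Finset.mem_union_right _ h)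
        rw [mem_verts] at this
        omega
      have h2 : (J.filter (fun x => q.orthogonal (cross P x))).card ≤ 1 := by
        rw [Finset.card_le_one]
        intro a ha b hb
        rw [Finset.mem_filter] at ha hb
        apply hinj ha.1 hb.1
        simp only
        rcases uniq ha.2 (orthogonal_cross_left (hPne a (hJV a ha.1))) hb.2
          (orthogonal_cross_left (hPne b (hJV b hb.1))) with h | h
        · exact absurd h hqP
        · exact h
      omega

/-- A structure with `m` marked points, `a` of which are deficient. -/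
def St (m a : ℕ) : Prop :=
  ∃ A M D : Finset PP, D ⊆ M ∧ M.card = m ∧ D.card = a ∧ (∀ p ∈ M, mult A p + 1 ≤ m) ∧
    (∀ p ∈ D, mult A p + 2 ≤ m) ∧
    A.card + m.choose 2 ≤ ∑ p ∈ M, mult A p + (a + 2) / 3 ∧
    ∀ q, q ∉ M → mult A q ≤ 2

lemma choose_succ (m : ℕ) : (m + 1).choose 2 = m + m.choose 2 := by
  rw [Nat.choose_succ_succ' m 1, Nat.choose_one_right]

lemma st_join {m a : ℕ} (h : St m a) : St (m + 1) a := by
  classical
  obtain ⟨A, M, D, hDM, hM, hD, h1, h2, h3, h4⟩ := h
  obtain ⟨P, A', g1, g2, g3, g4, g5, -, g7, -, -⟩ := add_point A M M (Finset.Subset.refl _)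
  refine ⟨A', insert P M, D, hDM.trans (Finset.subset_insert _ _), ?_, hD, ?_, ?_, ?_, ?_⟩
  · rw [Finset.card_insert_of_notMem g1, hM]
  · intro p hp
    rw [Finset.mem_insert] at hp
    rcases hp with rfl | hp
    · rw [g4, hM]
    · rw [g5 p hp]
      have := h1 p hp
      omega
  · intro p hp
    rw [g5 p (hDM hp)]
    have := h2 p hp
    omega
  · rw [Finset.sum_insert g1, g4, g3, choose_succ, hM]
    have : ∑ x ∈ M, mult A' x = ∑ x ∈ M, mult A x + m := by
      rw [Finset.sum_congr rfl g5, Finset.sum_add_distrib, Finset.sum_const, smul_eq_mul,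
        mul_one, hM]
    rw [this]
    omega
  · intro q hq
    rw [Finset.mem_insert, not_or] at hq
    rcases g7 q hq.2 hq.1 with h | h
    · rw [h]
      exact h4 q hq.2
    · exact h

lemma st_triple {m a : ℕ} (h : St m a) : St (m + 3) (a + 3) := by
  classical
  obtain ⟨A, M, D, hDM, hM, hD, h1, h2, h3, h4⟩ := h
  obtain ⟨P, A₁, p1, p2, p3, p4, p5, -, p7, -, -⟩ := add_point A M M (Finset.Subset.refl _)
  obtain ⟨Q, A₂, q1, q2, q3, q4, q5, -, q7, q8, q9⟩ := add_point A₁ (insert P M) (insert P M)
    (Finset.Subset.refl _)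
  obtain ⟨l, hl, hQl, hPl⟩ := q9 P (Finset.mem_insert_self _ _)
  have hPM : P ∉ M := p1
  have hQP : Q ≠ P := fun h => q1 (by rw [h]; exact Finset.mem_insert_self _ _)
  have hQM : Q ∉ M := fun h => q1 (Finset.mem_insert_of_mem h)
  have hMl : ∀ q ∈ M, ¬ q.orthogonal l := by
    intro q hq hql
    have hqP : q ≠ P := by
      rintro rfl
      exact hPM hq
    exact q8 q (Finset.mem_insert_of_mem hq) P (Finset.mem_insert_self _ _) hqP l hql hPl hQl
  obtain ⟨R, A₃, r1, r2, r3, r4, r5, r6, r7⟩ := add_point_on A₂ (insert Q (insert P M)) M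
    (fun x hx => Finset.mem_insert_of_mem (Finset.mem_insert_of_mem hx)) l hl hMl
  have hPc : (insert P M).card = m + 1 := by rw [Finset.card_insert_of_notMem hPM, hM]
  have hQc : (insert Q (insert P M)).card = m + 2 := by
    rw [Finset.card_insert_of_notMem q1, hPc]
  -- multiplicities
  have mM : ∀ p ∈ M, mult A₃ p = mult A p + 3 := by
    intro p hp
    rw [r5 p hp, q5 p (Finset.mem_insert_of_mem hp), p5 p hp]
  have mP : mult A₃ P = m + 1 := by
    rw [r6 P (by simp) hPM, q5 P (Finset.mem_insert_self _ _), p4, hM]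
  have mQ : mult A₃ Q = m + 1 := by
    rw [r6 Q (by simp) hQM, q4, hPc]
  have mR : mult A₃ R = m + 1 := by rw [r4, hM]
  refine ⟨A₃, insert R (insert Q (insert P M)), insert R (insert Q (insert P D)), ?_, ?_, ?_, ?_,
    ?_, ?_, ?_⟩
  · exact Finset.insert_subset_insert _ (Finset.insert_subset_insert _
      (Finset.insert_subset_insert _ hDM))
  · rw [Finset.card_insert_of_notMem r1, hQc]
  · have d1 : P ∉ D := fun h => hPM (hDM h)
    have d2 : Q ∉ insert P D := by
      intro h
      rw [Finset.mem_insert] at h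
      rcases h with h | h
      · exact hQP h
      · exact hQM (hDM h)
    have d3 : R ∉ insert Q (insert P D) := by
      intro h
      apply r1
      exact Finset.insert_subset_insert _ (Finset.insert_subset_insert _ hDM) h
    rw [Finset.card_insert_of_notMem d3, Finset.card_insert_of_notMem d2,
      Finset.card_insert_of_notMem d1, hD]
  · intro p hp
    simp only [Finset.mem_insert] at hp
    rcases hp with rfl | rfl | rfl | hp
    · omega
    · omega
    · omega
    · rw [mM p hp]
      have := h1 p hp
      omega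
  · intro p hp
    simp only [Finset.mem_insert] at hp
    rcases hp with rfl | rfl | rfl | hp
    · omega
    · omega
    · omega
    · rw [mM p (hDM hp)]
      have := h2 p hp
      omega
  · rw [Finset.sum_insert r1, Finset.sum_insert q1, Finset.sum_insert hPM, mP, mQ, mR]
    have : ∑ x ∈ M, mult A₃ x = ∑ x ∈ M, mult A x + m * 3 := by
      rw [Finset.sum_congr rfl mM, Finset.sum_add_distrib, Finset.sum_const, smul_eq_mul, hM]
    rw [this, r3, q3, p3, hPc, hM, choose_succ, choose_succ, choose_succ]
    omega
  · intro q hq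
    simp only [Finset.mem_insert, not_or] at hq
    obtain ⟨hqR, hqQ, hqP, hqM⟩ := hq
    have hq2 : q ∉ insert P M := by
      rw [Finset.mem_insert, not_or]
      exact ⟨hqP, hqM⟩
    rcases r7 q hqM hqR with h | h
    · rw [h]
      rcases q7 q hq2 hqQ with h' | h'
      · rw [h']
        rcases p7 q hqM hqP with h'' | h''
        · rw [h'']
          exact h4 q hqM
        · exact h''
      · exact h'
    · exact h

lemma st_zero : St 0 0 :=
  ⟨∅, ∅, ∅, Finset.Subset.refl _, rfl, rfl, by simp, by simp, by simp, by simp [mult]⟩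

lemma st_two : St 2 2 := by
  classical
  obtain ⟨P, -, -⟩ := exists_point_off ∅ ∅
  obtain ⟨Q, hQ, -⟩ := exists_point_off ∅ {P}
  have hPQ : P ≠ Q := by
    rintro rfl
    simp at hQ
  refine ⟨∅, {P, Q}, {P, Q}, Finset.Subset.refl _, Finset.card_pair hPQ, Finset.card_pair hPQ,
    ?_, ?_, ?_, ?_⟩
  · simp [mult]
  · simp [mult]
  · simp [mult]
  · simp [mult]

lemma st_four : St 4 4 := by
  classical
  obtain ⟨P, -, -⟩ := exists_point_off ∅ ∅
  obtain ⟨Q, hQ, -⟩ := exists_point_off ∅ {P}
  have hPQ : P ≠ Q := by
    rintro rfl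
    simp at hQ
  have h0 : ∀ q : PP, mult ∅ q = 0 := fun q => by simp [mult]
  obtain ⟨R, A₁, p1, p2, p3, p4, p5, -, p7, -, -⟩ := add_point ∅ {P, Q} {P, Q}
    (Finset.Subset.refl _)
  obtain ⟨T, A₂, q1, q2, q3, q4, q5, q6, q7, -, -⟩ := add_point A₁ (insert R {P, Q}) {P, Q}
    (Finset.subset_insert _ _)
  have hc : ({P, Q} : Finset PP).card = 2 := Finset.card_pair hPQ
  have mP : mult A₂ P = 2 := by
    rw [q5 P (by simp), p5 P (by simp), h0]
  have mQ : mult A₂ Q = 2 := by
    rw [q5 Q (by simp), p5 Q (by simp), h0]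
  have mR : mult A₂ R = 2 := by
    rw [q6 R (Finset.mem_insert_self _ _) p1, p4, hc]
  have mT : mult A₂ T = 2 := by rw [q4, hc]
  have hcard : (insert T (insert R {P, Q}) : Finset PP).card = 4 := by
    rw [Finset.card_insert_of_notMem q1, Finset.card_insert_of_notMem p1, hc]
  refine ⟨A₂, insert T (insert R {P, Q}), insert T (insert R {P, Q}), Finset.Subset.refl _,
    hcard, hcard, ?_, ?_, ?_, ?_⟩
  · intro p hp
    simp only [Finset.mem_insert, Finset.mem_singleton] at hp
    rcases hp with rfl | rfl | rfl | rfl <;> omega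
  · intro p hp
    simp only [Finset.mem_insert, Finset.mem_singleton] at hp
    rcases hp with rfl | rfl | rfl | rfl <;> omega
  · rw [Finset.sum_insert q1, Finset.sum_insert p1, Finset.sum_pair hPQ, mP, mQ, mR, mT, q3, p3, hc]
    simp [Nat.choose]
  · intro q hq
    rw [Finset.mem_insert, Finset.mem_insert, not_or, not_or] at hq
    obtain ⟨hqT, hqR, hqM⟩ := hq
    rcases q7 q hqM hqT with h | h
    · rw [h]
      rcases p7 q hqM hqR with h' | h'
      · rw [h', h0]
        omega
      · exact h'
    · exact h

/-- Fewer deficient points are demanded. -/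
lemma st_mono {m a b : ℕ} (h : St m a) (hb : b ≤ a) (hab : (a + 2) / 3 = (b + 2) / 3) :
    St m b := by
  obtain ⟨A, M, D, hDM, hM, hD, h1, h2, h3, h4⟩ := h
  obtain ⟨D', hD', hc⟩ := Finset.exists_subset_card_eq (s := D) (n := b) (by omega)
  exact ⟨A, M, D', hD'.trans hDM, hM, hc, h1, fun p hp => h2 p (hD' hp), by rw [← hab]; exact h3,
    h4⟩

lemma st_joins {m a : ℕ} (h : St m a) (t : ℕ) : St (m + t) a := by
  induction t with
  | zero => exact h
  | succ t ih => exact st_join ih

lemma st_triples {m a : ℕ} (h : St m a) (t : ℕ) : St (m + 3 * t) (a + 3 * t) := by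
  induction t with
  | zero => exact h
  | succ t ih =>
    have := st_triple ih
    rw [show m + 3 * (t + 1) = m + 3 * t + 3 by ring, show a + 3 * (t + 1) = a + 3 * t + 3 by ring]
    exact this

/-- The structure exists for all relevant `m` and `a`. -/
lemma st_all {m a : ℕ} (ha : a ≤ m) (h1 : a = 1 → 2 ≤ m) : St m a := by
  obtain ⟨q, hq⟩ : ∃ q, q = a / 3 := ⟨_, rfl⟩
  rcases Nat.lt_or_ge (a % 3) 1 with h | h
  · -- a = 3 q
    have h2 := st_triples (st_joins st_zero (m - a)) q
    have e1 : 0 + (m - a) + 3 * q = m := by omega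
    have e2 : 0 + 3 * q = a := by omega
    rwa [e1, e2] at h2
  · rcases Nat.lt_or_ge (a % 3) 2 with h' | h'
    · -- a = 3 q + 1
      by_cases hq0 : q = 0
      · have ha1 : a = 1 := by omega
        have h2 := st_joins st_two (m - 2)
        have e1 : 2 + (m - 2) = m := by
          have := h1 ha1
          omega
        rw [e1] at h2
        exact st_mono h2 (by omega) (by omega)
      · have h2 := st_triples (st_joins st_four (m - a)) (q - 1)
        have e1 : 4 + (m - a) + 3 * (q - 1) = m := by omega
        have e2 : 4 + 3 * (q - 1) = a := by omega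
        rwa [e1, e2] at h2
    · have h2 := st_triples (st_joins st_two (m - a)) q
      have e1 : 2 + (m - a) + 3 * q = m := by omega
      have e2 : 2 + 3 * q = a := by omega
      rwa [e1, e2] at h2

/-- Necessary inequality: deficient points cost. -/
lemma sum_mult_le_def (A M D : Finset PP) (hDM : D ⊆ M)
    (hD : ∀ p ∈ D, mult A p + 2 = M.card) :
    3 * ∑ p ∈ M, mult A p + D.card ≤ 3 * (A.card + M.card.choose 2) := by
  classical
  have h1 : ∑ p ∈ M, mult A p = ∑ l ∈ A, mult M l := by
    unfold mult
    have h := Finset.sum_card_bipartiteAbove_eq_sum_card_bipartiteBelow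
      (s := M) (t := A) (fun p l => p.orthogonal l)
    unfold Finset.bipartiteAbove Finset.bipartiteBelow at h
    rw [h]
    apply Finset.sum_congr rfl
    intro l _
    congr 1
    ext p
    simp only [Finset.mem_filter]
    rw [orthogonal_comm]
  -- each deficient point is on a bad line
  have h2 : D ⊆ (verts M \ A).biUnion (fun l => M.filter (fun p => l.orthogonal p)) ∪
      (A.filter (fun l => 3 ≤ mult M l)).biUnion (fun l => M.filter (fun p => l.orthogonal p)) := by
    intro p hp
    have hpM := hDM hp
    by_contra hcon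
    rw [Finset.mem_union, not_or] at hcon
    obtain ⟨c1, c2⟩ := hcon
    -- the map from other points of `M` to lines of `A` through `p`
    have c3 : ∀ q ∈ M.erase p, cross p q ∈ A.filter (fun l => p.orthogonal l) := by
      intro q hq
      rw [Finset.mem_erase] at hq
      rw [Finset.mem_filter]
      refine ⟨?_, orthogonal_cross_left (Ne.symm hq.1)⟩
      by_contra hA
      apply c1
      rw [Finset.mem_biUnion]
      refine ⟨cross p q, ?_, ?_⟩
      · rw [Finset.mem_sdiff]
        refine ⟨?_, hA⟩
        exact Finset.mem_image.mpr ⟨(p, q), Finset.mem_offDiag.mpr ⟨hpM, hq.2, Ne.symm hq.1⟩, rfl⟩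
      · rw [Finset.mem_filter]
        exact ⟨hpM, cross_orthogonal_left (Ne.symm hq.1)⟩
    have c4 : Set.InjOn (fun q => cross p q) (M.erase p : Set PP) := by
      intro q hq q' hq' hqq
      rw [Finset.mem_coe, Finset.mem_erase] at hq hq'
      by_contra hne
      simp only at hqq
      apply c2
      rw [Finset.mem_biUnion]
      refine ⟨cross p q, ?_, ?_⟩
      · rw [Finset.mem_filter]
        refine ⟨(Finset.mem_filter.mp (c3 q (Finset.mem_erase.mpr hq))).1, ?_⟩
        unfold mult
        have : ({p, q, q'} : Finset PP) ⊆ M.filter (fun x => (cross p q).orthogonal x) := by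
          intro x hx
          simp only [Finset.mem_insert, Finset.mem_singleton] at hx
          rw [Finset.mem_filter]
          rcases hx with rfl | rfl | rfl
          · exact ⟨hpM, cross_orthogonal_left (Ne.symm hq.1)⟩
          · exact ⟨hq.2, cross_orthogonal_right (Ne.symm hq.1)⟩
          · refine ⟨hq'.2, ?_⟩
            rw [hqq]
            exact cross_orthogonal_right (Ne.symm hq'.1)
        have h3 : ({p, q, q'} : Finset PP).card = 3 := by
          rw [Finset.card_eq_three]
          exact ⟨p, q, q', Ne.symm hq.1, Ne.symm hq'.1, hne, rfl⟩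
        calc 3 = ({p, q, q'} : Finset PP).card := h3.symm
          _ ≤ _ := Finset.card_le_card this
      · rw [Finset.mem_filter]
        exact ⟨hpM, cross_orthogonal_left (Ne.symm hq.1)⟩
    have c5 := Finset.card_le_card_of_injOn _ c3 c4
    rw [Finset.card_erase_of_mem hpM] at c5
    have c6 := hD p hp
    unfold mult at c6
    omega
  have h3 : D.card ≤ ∑ l ∈ verts M \ A, mult M l
      + ∑ l ∈ A.filter (fun l => 3 ≤ mult M l), mult M l := by
    refine (Finset.card_le_card h2).trans ((Finset.card_union_le _ _).trans ?_)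
    exact Nat.add_le_add Finset.card_biUnion_le Finset.card_biUnion_le
  have h4 : M.card.choose 2 = ∑ l ∈ verts M \ A, (mult M l).choose 2
      + ∑ l ∈ A, (mult M l).choose 2 := by
    rw [← sum_mult M]
    have h5 : ∑ l ∈ A, (mult M l).choose 2
        = ∑ l ∈ A.filter (fun l => l ∈ verts M), (mult M l).choose 2 := by
      rw [Finset.sum_filter]
      apply Finset.sum_congr rfl
      intro l _
      split_ifs with h
      · rfl
      · rw [mem_verts] at h
        exact Nat.choose_eq_zero_of_lt (by omega)
    rw [h5, ← Finset.sum_union]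
    · apply Finset.sum_congr _ (fun _ _ => rfl)
      ext l
      simp only [Finset.mem_union, Finset.mem_sdiff, Finset.mem_filter]
      tauto
    · rw [Finset.disjoint_left]
      intro l hl hl'
      exact (Finset.mem_sdiff.mp hl).2 (Finset.mem_filter.mp hl').1
  have n1 : ∀ s : ℕ, 2 ≤ s → s ≤ 3 * s.choose 2 := by
    intro s hs
    obtain ⟨t, rfl⟩ : ∃ t, s = t + 2 := ⟨s - 2, by omega⟩
    rw [choose_succ, choose_succ]
    omega
  have n2 : ∀ s : ℕ, 3 * s ≤ 3 + 3 * s.choose 2 := by
    intro s
    rcases s with _ | _ | t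
    · omega
    · omega
    · rw [choose_succ, choose_succ]
      omega
  have n3 : ∀ s : ℕ, 3 ≤ s → 3 * s + s ≤ 3 + 3 * s.choose 2 := by
    intro s hs
    obtain ⟨t, rfl⟩ : ∃ t, s = t + 3 := ⟨s - 3, by omega⟩
    rw [choose_succ, choose_succ, choose_succ]
    omega
  have h5 : ∑ l ∈ verts M \ A, mult M l ≤ 3 * ∑ l ∈ verts M \ A, (mult M l).choose 2 := by
    rw [Finset.mul_sum]
    apply Finset.sum_le_sum
    intro l hl
    exact n1 _ (mem_verts.mp (Finset.mem_sdiff.mp hl).1)
  have h6 : 3 * ∑ l ∈ A, mult M l + ∑ l ∈ A.filter (fun l => 3 ≤ mult M l), mult M l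
      ≤ 3 * A.card + 3 * ∑ l ∈ A, (mult M l).choose 2 := by
    rw [Finset.sum_filter, Finset.mul_sum, ← Finset.sum_add_distrib, Finset.mul_sum]
    calc ∑ l ∈ A, (3 * mult M l + if 3 ≤ mult M l then mult M l else 0)
        ≤ ∑ l ∈ A, (3 + 3 * (mult M l).choose 2) := by
          apply Finset.sum_le_sum
          intro l _
          split_ifs with h
          · exact n3 _ h
          · exact n2 _
      _ = 3 * A.card + ∑ l ∈ A, 3 * (mult M l).choose 2 := by
          rw [Finset.sum_add_distrib, Finset.sum_const, smul_eq_mul, mul_comm]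
  rw [h1]
  omega

end Pool.Agent.Helper74.LineArr
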