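import Pool.Agent.Helper74.LineArr.Moves

/-!
Arrangements with few multiple points.
-/

namespace Pool.Agent.Helper74.LineArr

open scoped LinearAlgebra.Projectivization
open Projectivization

/-- `m` points in general position with `e` connecting lines. -/
lemma genpos (m : ℕ) : ∀ e ≤ m.choose 2, ∃ A : Finset PP, ∃ pts : Fin m → PP,
    Function.Injective pts ∧ A.card = e ∧ (∀ i, mult A (pts i) ≤ m - 1) ∧
    ∑ i, mult A (pts i) = 2 * e ∧ ∀ q, (∀ i, q ≠ pts i) → mult A q ≤ 2 := by
  classical
  induction m with
  | zero =>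
    intro e he
    have he0 : e = 0 := by simpa using he
    subst he0
    refine ⟨∅, Fin.elim0, fun i => i.elim0, rfl, fun i => i.elim0, by simp, fun q _ => ?_⟩
    simp [mult]
  | succ m ih =>
    intro e he
    have hc : (m + 1).choose 2 = m + m.choose 2 := by
      rw [Nat.choose_succ_succ' m 1, Nat.choose_one_right]
    obtain ⟨A, pts, hinj, hcard, hdeg, hsum, hrest⟩ := ih (min e (m.choose 2)) (min_le_right _ _)
    set j := e - min e (m.choose 2) with hj
    have hjm : j ≤ m := by omega
    set J : Finset (Fin m) := Finset.univ.filter (fun i => i.val < j) with hJ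
    have hJcard : J.card = j := by
      rw [hJ, Fin.card_filter_val_lt]
      omega
    obtain ⟨P, A', h1, h2, h3, h4, h5, h6, h7, -, -⟩ := add_point A (Finset.univ.image pts)
      (J.image pts) (Finset.image_subset_image (Finset.subset_univ _))
    have hJc : (J.image pts).card = j := by
      rw [Finset.card_image_of_injective _ hinj, hJcard]
    have hPne : ∀ i, P ≠ pts i := by
      rintro i rfl
      exact h1 (Finset.mem_image_of_mem _ (Finset.mem_univ i))
    have hmem : ∀ i, pts i ∈ J.image pts ↔ i ∈ J := by
      intro i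
      rw [Finset.mem_image]
      constructor
      · rintro ⟨i', hi', h⟩
        rwa [← hinj h]
      · exact fun h => ⟨i, h, rfl⟩
    have hm' : ∀ i, mult A' (pts i) = mult A (pts i) + if i ∈ J then 1 else 0 := by
      intro i
      by_cases hi : i ∈ J
      · rw [if_pos hi]
        exact h5 _ ((hmem i).mpr hi)
      · rw [if_neg hi]
        exact h6 _ (Finset.mem_image_of_mem _ (Finset.mem_univ i)) (fun h => hi ((hmem i).mp h))
    refine ⟨A', Fin.cons P pts, ?_, ?_, ?_, ?_, ?_⟩
    · rw [Fin.cons_injective_iff]
      refine ⟨?_, hinj⟩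
      rintro ⟨i, hi⟩
      exact hPne i hi.symm
    · rw [h3, hcard, hJc]
      omega
    · intro i
      refine Fin.cases ?_ (fun i => ?_) i
      · simp only [Fin.cons_zero]
        rw [h4, hJc]
        omega
      · simp only [Fin.cons_succ]
        rw [hm']
        have := hdeg i
        have hi := i.isLt
        split_ifs <;> omega
    · rw [Fin.sum_univ_succ]
      simp only [Fin.cons_zero, Fin.cons_succ, hm']
      rw [Finset.sum_add_distrib, hsum, h4, hJc]
      have : ∑ i, (if i ∈ J then 1 else 0) = j := by
        rw [Finset.sum_ite_mem, Finset.univ_inter, Finset.sum_const, smul_eq_mul, mul_one, hJcard]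
      rw [this]
      omega
    · intro q hq
      have hqP : q ≠ P := by
        have := hq 0
        simpa using this
      have hq' : ∀ i, q ≠ pts i := by
        intro i
        have := hq i.succ
        simpa using this
      have hqJ : q ∉ J.image pts := by
        rw [Finset.mem_image]
        rintro ⟨i, -, hi⟩
        exact hq' i hi.symm
      rcases h7 q hqJ hqP with h | h
      · rw [h]
        exact hrest q hq'
      · exact h

/-- The set of points of multiplicity at least three. -/
noncomputable def multi (A : Finset PP) : Finset PP := by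
  classical
  exact (verts A).filter (fun p => 3 ≤ mult A p)

lemma mem_multi {A : Finset PP} {p : PP} : p ∈ multi A ↔ 3 ≤ mult A p := by
  classical
  unfold multi
  rw [Finset.mem_filter, mem_verts]
  omega

/-- Double counting of incidences of a set of points and a set of lines. -/
lemma sum_mult_le (A M : Finset PP) :
    ∑ p ∈ M, mult A p ≤ A.card + M.card.choose 2 := by
  classical
  have h1 : ∑ p ∈ M, mult A p = ∑ l ∈ A, mult M l := by
    unfold mult
    have h := Finset.sum_card_bipartiteAbove_eq_sum_card_bipartiteBelow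
      (s := M) (t := A) (fun p l => p.orthogonal l)
    unfold Finset.bipartiteAbove Finset.bipartiteBelow at h
    rw [h]
    apply Finset.sum_congr rfl
    intro l _
    congr 1
    ext p
    simp only [Finset.mem_filter]
    rw [orthogonal_comm]
  have h2 : ∑ l ∈ A, (mult M l).choose 2 ≤ M.card.choose 2 := by
    rw [← sum_mult M]
    calc ∑ l ∈ A, (mult M l).choose 2
        = ∑ l ∈ A.filter (fun l => l ∈ verts M), (mult M l).choose 2 := by
          rw [Finset.sum_filter]
          apply Finset.sum_congr rfl
          intro l _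
          split_ifs with h
          · rfl
          · rw [mem_verts] at h
            exact Nat.choose_eq_zero_of_lt (by omega)
      _ ≤ ∑ l ∈ verts M, (mult M l).choose 2 := by
          apply Finset.sum_le_sum_of_subset
          intro l hl
          exact (Finset.mem_filter.mp hl).2
  have h3 : ∀ a : ℕ, a ≤ 1 + a.choose 2 := by
    intro a
    induction a with
    | zero => omega
    | succ b ih =>
      have : (b + 1).choose 2 = b + b.choose 2 := by
        rw [Nat.choose_succ_succ' b 1, Nat.choose_one_right]
      omega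
  calc ∑ p ∈ M, mult A p = ∑ l ∈ A, mult M l := h1
    _ ≤ ∑ l ∈ A, (1 + (mult M l).choose 2) := Finset.sum_le_sum (fun l _ => h3 _)
    _ = A.card + ∑ l ∈ A, (mult M l).choose 2 := by
        rw [Finset.sum_add_distrib, Finset.sum_const, smul_eq_mul, mul_one]
    _ ≤ _ := by omega

/-- `pts` lists all points of multiplicity at least three, with multiplicities `r`. -/
lemma vnum_of_pts {ι : Type} [Fintype ι] (A : Finset PP) (pts : ι → PP)
    (hinj : Function.Injective pts) (r : ι → ℕ) (h1 : ∀ i, mult A (pts i) = r i)
    (h2 : ∀ q, (∀ i, q ≠ pts i) → mult A q ≤ 2) {k : ℕ} (hk : 3 ≤ k) :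
    vnum A k = (Finset.univ.filter (fun i => r i = k)).card := by
  classical
  rw [← Finset.card_image_of_injective _ hinj]
  unfold vnum
  rw [← Set.ncard_coe_finset]
  congr 1
  ext q
  simp only [Set.mem_ofPred_eq, Finset.coe_image, Set.mem_image, Finset.mem_coe,
    Finset.mem_filter, Finset.mem_univ, true_and]
  constructor
  · intro hq
    by_contra hcon
    have : ∀ i, q ≠ pts i := by
      rintro i rfl
      exact hcon ⟨i, by rw [← h1 i, hq], rfl⟩
    have := h2 q this
    omega
  · rintro ⟨i, hi, rfl⟩
    rw [h1, hi]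

/-- Main construction: prescribed multiplicities in the regime where every multiplicity is at
least `m - 1`. -/
lemma construct {m : ℕ} (r : Fin m → ℕ) (n : ℕ) (hr : ∀ i, m - 1 ≤ r i)
    (hn : ∑ i, r i ≤ n + m.choose 2) :
    ∃ A : Finset PP, ∃ pts : Fin m → PP, Function.Injective pts ∧ A.card = n ∧
      (∀ i, mult A (pts i) = r i) ∧ ∀ q, (∀ i, q ≠ pts i) → mult A q ≤ 2 := by
  classical
  obtain ⟨A, pts, hinj, hcard, hdeg, hsum, hrest⟩ := genpos m (∑ i, r i - n) (by omega)
  have hle : ∀ i, mult A (pts i) ≤ r i := fun i => (hdeg i).trans (hr i)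
  obtain ⟨A', h1, h2, h3⟩ := raise pts hinj r A hle
  rw [hsum, hcard] at h1
  have hs : ∑ i, mult A (pts i) ≤ ∑ i, r i := Finset.sum_le_sum (fun i _ => hle i)
  rw [hsum] at hs
  obtain ⟨A'', g1, g2, g3⟩ := add_generic A' (Finset.univ.image pts) (n - A'.card)
  refine ⟨A'', pts, hinj, by omega, ?_, ?_⟩
  · intro i
    rw [g2 _ (Finset.mem_image_of_mem _ (Finset.mem_univ i)), h2]
  · intro q hq
    have h0 := hrest q hq
    rcases g3 q with h | h
    · rw [h]
      rcases h3 q hq with h' | h'
      · omega
      · exact h'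
    · exact h

/-- From the identity one recovers the number of double points. -/
lemma realizable_of {n : ℕ} (v : ℕ → ℕ)
    (hid : ∑ k ∈ Finset.Icc 2 (n - 1), k.choose 2 * v k = n.choose 2)
    (A : Finset PP) (hA : A.card = n) (hc : ∀ p : PP, ∃ l ∈ A, ¬ p.orthogonal l)
    (h : ∀ k, 3 ≤ k → k ≤ n - 1 → vnum A k = v k) : Realizable n v := by
  refine ⟨A, hA, hc, fun k hk2 hkn => ?_⟩
  rcases Nat.lt_or_ge 2 k with hk | hk
  · exact h k hk hkn
  · have hk' : k = 2 := by omega
    subst hk'
    have h1 := sum_choose_vnum A hc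
    rw [hA] at h1
    have h2 : ∀ w : ℕ → ℕ, ∑ k ∈ Finset.Icc 2 (n - 1), k.choose 2 * w k
        = w 2 + ∑ k ∈ Finset.Icc 3 (n - 1), k.choose 2 * w k := by
      intro w
      rw [← Finset.add_sum_Ioc_eq_sum_Icc (show 2 ≤ n - 1 by omega)]
      have : Finset.Ioc 2 (n - 1) = Finset.Icc 3 (n - 1) := by
        ext x
        simp only [Finset.mem_Ioc, Finset.mem_Icc]
        omega
      rw [this]
      simp
    rw [h2] at h1 hid
    have h3 : ∑ k ∈ Finset.Icc 3 (n - 1), k.choose 2 * vnum A k
        = ∑ k ∈ Finset.Icc 3 (n - 1), k.choose 2 * v k := by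
      apply Finset.sum_congr rfl
      intro k hk
      rw [Finset.mem_Icc] at hk
      rw [h k hk.1 hk.2]
    omega

/-- Sum over multiple points. -/
lemma sum_multi (A : Finset PP) (hc : ∀ p : PP, ∃ l ∈ A, ¬ p.orthogonal l) (f : ℕ → ℕ) :
    ∑ p ∈ multi A, f (mult A p) = ∑ k ∈ Finset.Icc 3 (A.card - 1), f k * vnum A k := by
  classical
  have h1 : ∀ p ∈ multi A, mult A p ∈ Finset.Icc 3 (A.card - 1) := by
    intro p hp
    rw [Finset.mem_Icc]
    have h2 := mult_lt_card hc p
    exact ⟨mem_multi.mp hp, by omega⟩
  rw [← Finset.sum_fiberwise_of_maps_to h1]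
  apply Finset.sum_congr rfl
  intro k hk
  rw [Finset.mem_Icc] at hk
  rw [vnum_eq_card A (by omega : 2 ≤ k), Finset.sum_congr rfl (g := fun _ => f k)]
  · rw [Finset.sum_const, smul_eq_mul, mul_comm]
    congr 2
    ext p
    simp only [Finset.mem_filter, mem_multi, mem_verts]
    omega
  · intro p hp
    rw [(Finset.mem_filter.mp hp).2]

end Pool.Agent.Helper74.LineArr
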