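import Pool.Agent.Helper74.LineArr.Base

/-!
Moves on line arrangements: adding generic lines, generic lines through a point, and a new
point joined to old points.
-/

namespace Pool.Agent.Helper74.LineArr

open scoped LinearAlgebra.Projectivization
open Projectivization

/-- Add a generic line through `p`. -/
lemma add_through (A S : Finset PP) (p : PP) : ∃ A' : Finset PP, A'.card = A.card + 1 ∧
    mult A' p = mult A p + 1 ∧ (∀ q ∈ S, q ≠ p → mult A' q = mult A q) ∧
    (∀ q, q ≠ p → mult A' q = mult A q ∨ mult A' q ≤ 2) := by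
  classical
  obtain ⟨l, hl, hlA, hlS⟩ := exists_line_through p (S ∪ verts A) A
  refine ⟨insert l A, Finset.card_insert_of_notMem hlA, ?_, ?_, ?_⟩
  · rw [mult_insert hlA, if_pos hl]
  · intro q hq hqp
    rw [mult_insert hlA, if_neg (hlS q (Finset.mem_union_left _ hq) hqp)]
    rfl
  · intro q hqp
    rw [mult_insert hlA]
    by_cases h : q.orthogonal l
    · right
      rw [if_pos h]
      have : q ∉ verts A := fun h' => hlS q (Finset.mem_union_right _ h') hqp h
      rw [mem_verts] at this
      omega
    · left
      rw [if_neg h]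
      rfl

/-- Add `t` generic lines through `p`. -/
lemma add_through_many (A S : Finset PP) (p : PP) (t : ℕ) : ∃ A' : Finset PP,
    A'.card = A.card + t ∧
    mult A' p = mult A p + t ∧ (∀ q ∈ S, q ≠ p → mult A' q = mult A q) ∧
    (∀ q, q ≠ p → mult A' q = mult A q ∨ mult A' q ≤ 2) := by
  induction t with
  | zero => exact ⟨A, rfl, rfl, fun _ _ _ => rfl, fun _ _ => Or.inl rfl⟩
  | succ t ih =>
    obtain ⟨A₁, h1, h2, h3, h4⟩ := ih
    obtain ⟨A₂, g1, g2, g3, g4⟩ := add_through A₁ S p
    refine ⟨A₂, by omega, by omega, ?_, ?_⟩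
    · intro q hq hqp
      rw [g3 q hq hqp, h3 q hq hqp]
    · intro q hqp
      rcases g4 q hqp with h | h
      · rcases h4 q hqp with h' | h'
        · left
          rw [h, h']
        · right
          omega
      · exact Or.inr h

/-- Add `t` generic lines. -/
lemma add_generic (A S : Finset PP) (t : ℕ) : ∃ A' : Finset PP,
    A'.card = A.card + t ∧ (∀ q ∈ S, mult A' q = mult A q) ∧
    (∀ q, mult A' q = mult A q ∨ mult A' q ≤ 2) := by
  classical
  induction t with
  | zero => exact ⟨A, rfl, fun _ _ => rfl, fun _ => Or.inl rfl⟩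
  | succ t ih =>
    obtain ⟨A₁, h1, h2, h3⟩ := ih
    obtain ⟨l, hlA, hlS⟩ := exists_line_off (S ∪ verts A₁) A₁
    refine ⟨insert l A₁, ?_, ?_, ?_⟩
    · rw [Finset.card_insert_of_notMem hlA, h1]
      ring
    · intro q hq
      rw [mult_insert hlA, if_neg (hlS q (Finset.mem_union_left _ hq)), h2 q hq]
      rfl
    · intro q
      rw [mult_insert hlA]
      by_cases h : q.orthogonal l
      · right
        rw [if_pos h]
        have : q ∉ verts A₁ := fun h' => hlS q (Finset.mem_union_right _ h') h
        rw [mem_verts] at this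
        omega
      · rw [if_neg h, add_zero]
        exact h3 q

/-- Add a new generic point joined to the points of `J`. -/
lemma add_point (A S J : Finset PP) (hJ : J ⊆ S) : ∃ P : PP, ∃ A' : Finset PP, P ∉ S ∧
    mult A P = 0 ∧ A'.card = A.card + J.card ∧ mult A' P = J.card ∧
    (∀ q ∈ J, mult A' q = mult A q + 1) ∧ (∀ q ∈ S, q ∉ J → mult A' q = mult A q) ∧
    (∀ q, q ∉ J → q ≠ P → mult A' q = mult A q ∨ mult A' q ≤ 2) ∧
    (∀ x ∈ S, ∀ y ∈ S, x ≠ y → ∀ l, x.orthogonal l → y.orthogonal l → ¬ P.orthogonal l) ∧
    (∀ q ∈ J, ∃ l ∈ A', P.orthogonal l ∧ q.orthogonal l) := by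
  classical
  set V := S ∪ verts A with hV
  obtain ⟨P, hPV, hPF⟩ := exists_point_off (A ∪ V.offDiag.image (fun x => cross x.1 x.2)) V
  have hPA : ∀ l ∈ A, ¬ P.orthogonal l := fun l hl => hPF l (Finset.mem_union_left _ hl)
  have hPj : ∀ x ∈ V, ∀ y ∈ V, x ≠ y → ∀ l, x.orthogonal l → y.orthogonal l →
      ¬ P.orthogonal l := by
    intro x hx y hy hxy l hxl hyl hPl
    apply hPF (cross x y)
    · apply Finset.mem_union_right
      exact Finset.mem_image.mpr ⟨(x, y), Finset.mem_offDiag.mpr ⟨hx, hy, hxy⟩, rfl⟩
    · rcases uniq hxl hyl (orthogonal_cross_left hxy) (orthogonal_cross_right hxy) with h | h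
      · exact absurd h hxy
      · rw [← h]
        exact hPl
  have hPne : ∀ q ∈ V, P ≠ q := by
    rintro q hq rfl
    exact hPV hq
  have hJV : ∀ q ∈ J, q ∈ V := fun q hq => Finset.mem_union_left _ (hJ hq)
  have hinj : Set.InjOn (fun q => cross P q) (J : Set PP) := by
    intro q hq q' hq' h
    by_contra hne
    simp only at h
    refine hPj q (hJV q hq) q' (hJV q' hq') hne (cross P q) ?_ ?_ ?_
    · exact orthogonal_cross_right (hPne q (hJV q hq))
    · rw [h]
      exact orthogonal_cross_right (hPne q' (hJV q' hq'))
    · exact orthogonal_cross_left (hPne q (hJV q hq))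
  have hdis : Disjoint A (J.image (fun q => cross P q)) := by
    rw [Finset.disjoint_left]
    intro l hl hl'
    obtain ⟨q, hq, rfl⟩ := Finset.mem_image.mp hl'
    exact hPA _ hl (orthogonal_cross_left (hPne q (hJV q hq)))
  have hmult : ∀ x : PP, mult (A ∪ J.image (fun q => cross P q)) x
      = mult A x + (J.filter (fun q => x.orthogonal (cross P q))).card := by
    intro x
    unfold mult
    rw [Finset.filter_union, Finset.card_union_of_disjoint]
    · congr 1
      rw [Finset.filter_image, Finset.card_image_of_injOn]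
      intro q hq q' hq' h
      apply hinj _ _ h
      · exact (Finset.mem_filter.mp hq).1
      · exact (Finset.mem_filter.mp hq').1
    · exact Finset.disjoint_filter_filter hdis
  have hVoff : ∀ x ∈ V, x ∉ J → J.filter (fun q => x.orthogonal (cross P q)) = ∅ := by
    intro x hx hxJ
    rw [Finset.filter_eq_empty_iff]
    intro q hq hxq
    have hne : x ≠ q := by
      rintro rfl
      exact hxJ hq
    exact hPj x hx q (hJV q hq) hne _ hxq (orthogonal_cross_right (hPne q (hJV q hq)))
      (orthogonal_cross_left (hPne q (hJV q hq)))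
  have hmP : mult A P = 0 := by
    unfold mult
    rw [Finset.card_eq_zero, Finset.filter_eq_empty_iff]
    exact fun l hl => hPA l hl
  refine ⟨P, A ∪ J.image (fun q => cross P q), ?_, hmP, ?_, ?_, ?_, ?_, ?_, ?_, ?_⟩
  · exact fun h => hPV (Finset.mem_union_left _ h)
  · rw [Finset.card_union_of_disjoint hdis, Finset.card_image_of_injOn hinj]
  · rw [hmult, hmP, zero_add, Finset.filter_true_of_mem]
    intro q hq
    exact orthogonal_cross_left (hPne q (hJV q hq))
  · intro q hq
    rw [hmult]
    congr 1
    rw [Finset.card_eq_one]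
    refine ⟨q, ?_⟩
    ext q'
    simp only [Finset.mem_filter, Finset.mem_singleton]
    constructor
    · rintro ⟨hq', h⟩
      by_contra hne
      exact hPj q (hJV q hq) q' (hJV q' hq') (Ne.symm hne) _ h
        (orthogonal_cross_right (hPne q' (hJV q' hq')))
        (orthogonal_cross_left (hPne q' (hJV q' hq')))
    · rintro rfl
      exact ⟨hq, orthogonal_cross_right (hPne q' (hJV q' hq))⟩
  · intro q hq hqJ
    rw [hmult, hVoff q (Finset.mem_union_left _ hq) hqJ]
    rfl
  · intro q hqJ hqP
    by_cases hqV : q ∈ V
    · left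
      rw [hmult, hVoff q hqV hqJ]
      rfl
    · right
      rw [hmult]
      have h1 : mult A q ≤ 1 := by
        have : q ∉ verts A := fun h => hqV (Finset.mem_union_right _ h)
        rw [mem_verts] at this
        omega
      have h2 : (J.filter (fun x => q.orthogonal (cross P x))).card ≤ 1 := by
        rw [Finset.card_le_one]
        intro a ha b hb
        rw [Finset.mem_filter] at ha hb
        apply hinj ha.1 hb.1
        simp only
        rcases uniq ha.2 (orthogonal_cross_left (hPne a (hJV a ha.1))) hb.2
          (orthogonal_cross_left (hPne b (hJV b hb.1))) with h | h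
        · exact absurd h hqP
        · exact h
      omega
  · intro x hx y hy
    exact hPj x (Finset.mem_union_left _ hx) y (Finset.mem_union_left _ hy)
  · intro q hq
    exact ⟨cross P q, Finset.mem_union_right _ (Finset.mem_image_of_mem _ hq),
      orthogonal_cross_left (hPne q (hJV q hq)), orthogonal_cross_right (hPne q (hJV q hq))⟩

/-- Raise the multiplicities of finitely many points. -/
lemma raise {ι : Type} [Fintype ι] (pts : ι → PP) (hinj : Function.Injective pts) (r : ι → ℕ)
    (A : Finset PP) (h : ∀ i, mult A (pts i) ≤ r i) :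
    ∃ A' : Finset PP, A'.card + ∑ i, mult A (pts i) = A.card + ∑ i, r i ∧
      (∀ i, mult A' (pts i) = r i) ∧
      (∀ q, (∀ i, q ≠ pts i) → mult A' q = mult A q ∨ mult A' q ≤ 2) := by
  classical
  have key : ∀ s : Finset ι, ∃ A' : Finset PP,
      A'.card + ∑ i ∈ s, mult A (pts i) = A.card + ∑ i ∈ s, r i ∧
      (∀ i, mult A' (pts i) = if i ∈ s then r i else mult A (pts i)) ∧
      (∀ q, (∀ i, q ≠ pts i) → mult A' q = mult A q ∨ mult A' q ≤ 2) := by
    intro s
    induction s using Finset.induction_on with
    | empty => exact ⟨A, by simp, by simp, fun _ _ => Or.inl rfl⟩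
    | insert j s hj ih =>
      obtain ⟨A₁, h1, h2, h3⟩ := ih
      obtain ⟨A₂, g1, g2, g3, g4⟩ := add_through_many A₁ (Finset.univ.image pts) (pts j)
        (r j - mult A (pts j))
      refine ⟨A₂, ?_, ?_, ?_⟩
      · rw [Finset.sum_insert hj, Finset.sum_insert hj, g1]
        have := h j
        omega
      · intro i
        by_cases hij : i = j
        · subst hij
          rw [if_pos (Finset.mem_insert_self _ _), g2, h2 i, if_neg hj]
          have := h i
          omega
        · rw [g3 (pts i) (Finset.mem_image_of_mem _ (Finset.mem_univ i))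
            (fun h' => hij (hinj h')), h2 i]
          simp [Finset.mem_insert, hij]
      · intro q hq
        rcases g4 q (hq j) with h | h
        · rcases h3 q hq with h' | h'
          · left
            rw [h, h']
          · right
            omega
        · exact Or.inr h
  obtain ⟨A', h1, h2, h3⟩ := key Finset.univ
  exact ⟨A', h1, by simpa using h2, h3⟩

end Pool.Agent.Helper74.LineArr
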