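import Pool.Agent.Helper74.LineArr.Few

/-!
Lines indexed by the circle group: three of them are concurrent iff the sum of the parameters
vanishes.
-/

namespace Pool.Agent.Helper74.LineArr

open scoped LinearAlgebra.Projectivization
open Projectivization Matrix

/-- Coordinates of the line with parameter `x`. -/
noncomputable def w (x : ℝ) : Fin 3 → ℝ := ![Real.cos x, Real.sin x, Real.sin (3 * x)]

lemma w_ne (x : ℝ) : w x ≠ 0 := by
  intro h
  have h0 : Real.cos x = 0 := by simpa [w] using congrFun h 0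
  have h1 : Real.sin x = 0 := by simpa [w] using congrFun h 1
  have := Real.sin_sq_add_cos_sq x
  rw [h0, h1] at this
  norm_num at this

/-- The line with parameter `x`. -/
noncomputable def ln (x : ℝ) : PP := mk ℝ (w x) (w_ne x)

lemma ln_ne {x y : ℝ} (h : Real.sin (x - y) ≠ 0) : ln x ≠ ln y := by
  intro h'
  unfold ln at h'
  rw [mk_eq_mk_iff_crossProduct_eq_zero, cross_apply] at h'
  have h2 := congrFun h' 2
  apply h
  rw [Real.sin_sub]
  simp [w] at h2
  linarith

lemma det_aux (a b c A B C : ℝ) (hx : a ^ 2 + A ^ 2 = 1) (hy : b ^ 2 + B ^ 2 = 1)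
    (hz : c ^ 2 + C ^ 2 = 1) :
    -4 * ((a * b ^ 3 - a ^ 3 * b) * C + (a ^ 3 * B - A * b ^ 3) * c
      + (A * b - a * B) * c ^ 3)
    = 4 * (a * B * C + A * b * C + A * B * c - a * b * c) * (b * A - B * a) * (c * A - C * a)
      * (b * C - B * c) := by
  have h1 : 4 * (a * B * C + A * b * C + A * B * c - a * b * c) * (b * A - B * a)
      * (c * A - C * a) * (b * C - B * c)
      = -4 * ((a * b ^ 3 * (a ^ 2 + A ^ 2) * (c ^ 2 + C ^ 2)
          - a ^ 3 * b * (b ^ 2 + B ^ 2) * (c ^ 2 + C ^ 2)) * C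
        + (a ^ 3 * B * (b ^ 2 + B ^ 2) * (c ^ 2 + C ^ 2)
          - A * b ^ 3 * (a ^ 2 + A ^ 2) * (c ^ 2 + C ^ 2)) * c
        + (A * b - a * B) * c ^ 3 * (a ^ 2 + A ^ 2) * (b ^ 2 + B ^ 2)) := by ring
  rw [h1, hx, hy, hz]
  ring

lemma det_w (x y z : ℝ) : crossProduct (w x) (w y) ⬝ᵥ w z
    = 4 * Real.sin (x + y + z) * Real.sin (y - x) * Real.sin (z - x) * Real.sin (y - z) := by
  have h := det_aux (Real.sin x) (Real.sin y) (Real.sin z) (Real.cos x) (Real.cos y) (Real.cos z)
    (Real.sin_sq_add_cos_sq x) (Real.sin_sq_add_cos_sq y) (Real.sin_sq_add_cos_sq z)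
  rw [cross_apply]
  simp only [w, dotProduct, Fin.sum_univ_three, Real.sin_three_mul, Real.sin_add, Real.cos_add,
    Real.sin_sub]
  simp
  linear_combination h

/-- Concurrency criterion. -/
lemma conc {x y z : ℝ} (hxy : Real.sin (y - x) ≠ 0) (hxz : Real.sin (z - x) ≠ 0)
    (hyz : Real.sin (y - z) ≠ 0) {p : PP} (hx : p.orthogonal (ln x)) (hy : p.orthogonal (ln y)) :
    p.orthogonal (ln z) ↔ Real.sin (x + y + z) = 0 := by
  have hne : ln x ≠ ln y := by
    apply ln_ne
    rw [← neg_sub, Real.sin_neg]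
    exact neg_ne_zero.mpr hxy
  have hp : p = cross (ln x) (ln y) := by
    rcases uniq hx (cross_orthogonal_left hne) hy (cross_orthogonal_right hne) with h | h
    · exact h
    · exact absurd h hne
  rw [hp]
  unfold ln at hne ⊢
  rw [cross_mk_of_ne (w_ne x) (w_ne y) hne, orthogonal_mk, det_w]
  constructor
  · intro h
    rcases mul_eq_zero.mp h with h | h
    · rcases mul_eq_zero.mp h with h | h
      · rcases mul_eq_zero.mp h with h | h
        · linarith
        · exact absurd h hxy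
      · exact absurd h hxz
    · exact absurd h hyz
  · intro h
    rw [h]
    ring

/-- The parameters: the group `ZMod m × ℤ` inside the circle. -/
noncomputable def th {m : ℕ} (g : ZMod m × ℤ) : ℝ :=
  Real.pi * ((g.1.val : ℝ) / m + g.2 * √2)

lemma irr {m : ℕ} (hm : 0 < m) (a b : ℤ) :
    Real.sin (Real.pi * ((a : ℝ) / m + b * √2)) = 0 ↔ (m : ℤ) ∣ a ∧ b = 0 := by
  have hm' : (m : ℝ) ≠ 0 := by positivity
  rw [Real.sin_eq_zero_iff]
  constructor
  · rintro ⟨k, hk⟩
    have h1 : (k : ℝ) = (a : ℝ) / m + b * √2 := by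
      have := Real.pi_ne_zero
      apply mul_left_cancel₀ this
      linarith
    have hb : b = 0 := by
      by_contra hb
      have h2 : √2 = (((k - (a : ℚ) / m) / b : ℚ) : ℝ) := by
        push_cast
        have : (b : ℝ) ≠ 0 := by exact_mod_cast hb
        field_simp
        field_simp at h1
        linarith
      exact irrational_sqrt_two ⟨_, h2.symm⟩
    refine ⟨⟨k, ?_⟩, hb⟩
    rw [hb] at h1
    field_simp at h1
    have h3 : (k : ℝ) * m = a := by simpa using h1
    have : k * m = a := by exact_mod_cast h3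
    linarith
  · rintro ⟨⟨k, hk⟩, hb⟩
    refine ⟨k, ?_⟩
    rw [hb, hk]
    push_cast
    field_simp
    ring

lemma th_sub {m : ℕ} (hm : 0 < m) {g h : ZMod m × ℤ} (hgh : g ≠ h) :
    Real.sin (th g - th h) ≠ 0 := by
  have : NeZero m := ⟨hm.ne'⟩
  have e : th g - th h = Real.pi * ((((g.1.val : ℤ) - (h.1.val : ℤ) : ℤ) : ℝ) / m
      + ((g.2 - h.2 : ℤ) : ℝ) * √2) := by
    unfold th
    push_cast
    ring
  rw [e]
  intro h0
  rw [irr hm] at h0
  obtain ⟨h1, h2⟩ := h0
  apply hgh
  ext1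
  · have h3 : (((g.1.val : ℤ) - (h.1.val : ℤ) : ℤ) : ZMod m) = 0 := by
      rw [ZMod.intCast_zmod_eq_zero_iff_dvd]
      exact h1
    push_cast at h3
    rw [ZMod.natCast_zmod_val, ZMod.natCast_zmod_val] at h3
    exact sub_eq_zero.mp h3
  · linarith

lemma th_sum {m : ℕ} (hm : 0 < m) (g h k : ZMod m × ℤ) :
    Real.sin (th g + th h + th k) = 0 ↔ g + h + k = 0 := by
  have : NeZero m := ⟨hm.ne'⟩
  have e : th g + th h + th k = Real.pi * ((((g.1.val : ℤ) + (h.1.val : ℤ) + (k.1.val : ℤ) : ℤ)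
      : ℝ) / m + ((g.2 + h.2 + k.2 : ℤ) : ℝ) * √2) := by
    unfold th
    push_cast
    ring
  rw [e, irr hm]
  have h3 : ((((g.1.val : ℤ) + (h.1.val : ℤ) + (k.1.val : ℤ) : ℤ)) : ZMod m) = 0
      ↔ (m : ℤ) ∣ ((g.1.val : ℤ) + (h.1.val : ℤ) + (k.1.val : ℤ) : ℤ) :=
    ZMod.intCast_zmod_eq_zero_iff_dvd _ _
  rw [← h3]
  push_cast
  rw [ZMod.natCast_zmod_val, ZMod.natCast_zmod_val, ZMod.natCast_zmod_val, Prod.ext_iff]
  rfl

open scoped Classical in
/-- The 3-element subsets of `S` with zero sum. -/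
noncomputable def Zs {G : Type} [AddCommGroup G] (S : Finset G) : Finset (Finset G) :=
  (S.powersetCard 3).filter (fun s => ∑ x ∈ s, x = 0)

lemma mem_Zs {G : Type} [AddCommGroup G] {S s : Finset G} :
    s ∈ Zs S ↔ s ⊆ S ∧ s.card = 3 ∧ ∑ x ∈ s, x = 0 := by
  classical
  unfold Zs
  rw [Finset.mem_filter, Finset.mem_powersetCard, and_assoc]

open scoped Classical in
/-- The arrangement attached to a finite set of parameters. -/
noncomputable def arr {m : ℕ} (S : Finset (ZMod m × ℤ)) : Finset PP :=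
  S.image (fun g => ln (th g))

lemma ln_th_inj {m : ℕ} (hm : 0 < m) : Function.Injective (fun g : ZMod m × ℤ => ln (th g)) := by
  intro g h hgh
  by_contra hne
  exact ln_ne (th_sub hm hne) hgh

open scoped Classical in
lemma mult_arr {m : ℕ} (hm : 0 < m) (S : Finset (ZMod m × ℤ)) (p : PP) :
    mult (arr S) p = (S.filter (fun g => p.orthogonal (ln (th g)))).card := by
  unfold mult arr
  rw [Finset.filter_image, Finset.card_image_of_injective _ (ln_th_inj hm)]

lemma conc' {m : ℕ} (hm : 0 < m) {g h k : ZMod m × ℤ} (hgh : g ≠ h) (hgk : g ≠ k) (hhk : h ≠ k)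
    {p : PP} (hg : p.orthogonal (ln (th g))) (hh : p.orthogonal (ln (th h))) :
    p.orthogonal (ln (th k)) ↔ g + h + k = 0 := by
  rw [conc (th_sub hm (Ne.symm hgh)) (th_sub hm (Ne.symm hgk)) (th_sub hm hhk) hg hh,
    th_sum hm]

open scoped Classical in
lemma mult_arr_le {m : ℕ} (hm : 0 < m) (S : Finset (ZMod m × ℤ)) (p : PP) :
    mult (arr S) p ≤ 3 := by
  rw [mult_arr hm]
  by_contra hcon
  push Not at hcon
  obtain ⟨a, b, c, d, ha, hb, hc, hd, h1, h2, h3, h4, h5, h6⟩ :
      ∃ a b c d : ZMod m × ℤ, a ∈ S.filter (fun g => p.orthogonal (ln (th g))) ∧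
        b ∈ S.filter (fun g => p.orthogonal (ln (th g))) ∧
        c ∈ S.filter (fun g => p.orthogonal (ln (th g))) ∧
        d ∈ S.filter (fun g => p.orthogonal (ln (th g))) ∧
        a ≠ b ∧ a ≠ c ∧ a ≠ d ∧ b ≠ c ∧ b ≠ d ∧ c ≠ d := by
    obtain ⟨X, hX, hXc⟩ := Finset.exists_subset_card_eq (show 4 ≤ _ from hcon)
    obtain ⟨a, b, c, d, h1, h2, h3, h4, h5, h6, rfl⟩ := Finset.card_eq_four.mp hXc
    exact ⟨a, b, c, d, hX (by simp), hX (by simp), hX (by simp), hX (by simp),
      h1, h2, h3, h4, h5, h6⟩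
  rw [Finset.mem_filter] at ha hb hc hd
  have e1 := (conc' hm h1 h2 h4 ha.2 hb.2).mp hc.2
  have e2 := (conc' hm h1 h3 h5 ha.2 hb.2).mp hd.2
  apply h6
  have : a + b + c = a + b + d := by rw [e1, e2]
  exact add_left_cancel this

open scoped Classical in
lemma vnum_arr {m : ℕ} (hm : 0 < m) (S : Finset (ZMod m × ℤ)) :
    vnum (arr S) 3 = (Zs S).card := by
  rw [vnum_eq_card _ (by norm_num : 2 ≤ 3)]
  have sum3 : ∀ {g h k : ZMod m × ℤ}, g ≠ h → g ≠ k → h ≠ k →
      ∑ x ∈ ({g, h, k} : Finset (ZMod m × ℤ)), x = g + h + k := by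
    intro g h k h1 h2 h3
    rw [Finset.sum_insert (by simp [h1, h2]), Finset.sum_pair h3]
    abel
  apply Finset.card_bij (fun p _ => S.filter (fun g => p.orthogonal (ln (th g))))
  · intro p hp
    rw [Finset.mem_filter, mult_arr hm] at hp
    obtain ⟨g, h, k, h1, h2, h3, h4⟩ := Finset.card_eq_three.mp hp.2
    rw [mem_Zs]
    refine ⟨Finset.filter_subset _ _, hp.2, ?_⟩
    have hg : g ∈ S.filter (fun g => p.orthogonal (ln (th g))) := by rw [h4]; simp
    have hh : h ∈ S.filter (fun g => p.orthogonal (ln (th g))) := by rw [h4]; simp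
    have hk : k ∈ S.filter (fun g => p.orthogonal (ln (th g))) := by rw [h4]; simp
    rw [Finset.mem_filter] at hg hh hk
    rw [h4, sum3 h1 h2 h3]
    exact (conc' hm h1 h2 h3 hg.2 hh.2).mp hk.2
  · intro p hp q hq hpq
    rw [Finset.mem_filter, mult_arr hm] at hp
    obtain ⟨g, h, k, h1, h2, h3, h4⟩ := Finset.card_eq_three.mp hp.2
    have hg : g ∈ S.filter (fun g => p.orthogonal (ln (th g))) := by rw [h4]; simp
    have hh : h ∈ S.filter (fun g => p.orthogonal (ln (th g))) := by rw [h4]; simp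
    have hg' := hg
    have hh' := hh
    have hpq' : S.filter (fun g => p.orthogonal (ln (th g)))
        = S.filter (fun g => q.orthogonal (ln (th g))) := hpq
    rw [hpq'] at hg' hh'
    rw [Finset.mem_filter] at hg hh hg' hh'
    rcases uniq hg.2 hg'.2 hh.2 hh'.2 with h | h
    · exact h
    · exact absurd (ln_th_inj hm h) h1
  · intro s hs
    rw [mem_Zs] at hs
    obtain ⟨hsS, hs3, hs0⟩ := hs
    obtain ⟨g, h, k, h1, h2, h3, rfl⟩ := Finset.card_eq_three.mp hs3
    rw [sum3 h1 h2 h3] at hs0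
    have hne : ln (th g) ≠ ln (th h) := fun h' => h1 (ln_th_inj hm h')
    have og : (cross (ln (th g)) (ln (th h))).orthogonal (ln (th g)) := cross_orthogonal_left hne
    have oh : (cross (ln (th g)) (ln (th h))).orthogonal (ln (th h)) := cross_orthogonal_right hne
    have ok : (cross (ln (th g)) (ln (th h))).orthogonal (ln (th k)) :=
      (conc' hm h1 h2 h3 og oh).mpr hs0
    have hsub : ({g, h, k} : Finset (ZMod m × ℤ)) ⊆
        S.filter (fun x => (cross (ln (th g)) (ln (th h))).orthogonal (ln (th x))) := by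
      intro x hx
      rw [Finset.mem_filter]
      refine ⟨hsS hx, ?_⟩
      simp only [Finset.mem_insert, Finset.mem_singleton] at hx
      rcases hx with rfl | rfl | rfl
      · exact og
      · exact oh
      · exact ok
    have hle : (S.filter (fun x => (cross (ln (th g)) (ln (th h))).orthogonal
        (ln (th x)))).card ≤ 3 := by
      rw [← mult_arr hm]
      exact mult_arr_le hm S _
    have heq := Finset.eq_of_subset_of_card_le hsub (by rw [hs3]; exact hle)
    refine ⟨cross (ln (th g)) (ln (th h)), ?_, heq.symm⟩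
    rw [Finset.mem_filter, mem_verts, mult_arr hm, ← heq, hs3]
    exact ⟨by norm_num, rfl⟩

/-- Realisation by sets of parameters. -/
lemma realizable_arr {m : ℕ} (hm : 0 < m) (S : Finset (ZMod m × ℤ)) (n t : ℕ) (hn : 4 ≤ n)
    (hS : S.card = n) (hZ : (Zs S).card = t) :
    3 * t ≤ n.choose 2 ∧
    Realizable n (fun k => if k = 2 then n.choose 2 - 3 * t else if k = 3 then t else 0) := by
  classical
  have hcard : (arr S).card = n := by
    unfold arr
    rw [Finset.card_image_of_injective _ (ln_th_inj hm), hS]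
  have hc : ∀ p : PP, ∃ l ∈ arr S, ¬ p.orthogonal l := by
    apply no_common_of_mult_lt
    intro p
    have := mult_arr_le hm S p
    omega
  have hv : ∀ k, 4 ≤ k → vnum (arr S) k = 0 := by
    intro k hk
    rw [vnum_eq_card _ (by omega : 2 ≤ k), Finset.card_eq_zero, Finset.filter_eq_empty_iff]
    intro p _
    have := mult_arr_le hm S p
    omega
  have h3 : vnum (arr S) 3 = t := by rw [vnum_arr hm, hZ]
  have hsplit : ∀ f : ℕ → ℕ, (∀ k, 4 ≤ k → f k = 0) →
      ∑ k ∈ Finset.Icc 2 (n - 1), k.choose 2 * f k = f 2 + 3 * f 3 := by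
    intro f hf
    have : ∑ k ∈ Finset.Icc 2 (n - 1), k.choose 2 * f k = ∑ k ∈ {2, 3}, k.choose 2 * f k := by
      symm
      apply Finset.sum_subset
      · intro k hk
        simp only [Finset.mem_insert, Finset.mem_singleton] at hk
        rw [Finset.mem_Icc]
        omega
      · intro k hk hk'
        rw [Finset.mem_Icc] at hk
        simp only [Finset.mem_insert, Finset.mem_singleton, not_or] at hk'
        rw [hf k (by omega), mul_zero]
    rw [this, Finset.sum_pair (by norm_num)]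
    simp [Nat.choose]
  have hid := sum_choose_vnum (arr S) hc
  rw [hcard, hsplit _ hv, h3] at hid
  refine ⟨by omega, arr S, hcard, hc, ?_⟩
  intro k hk2 hkn
  simp only
  split_ifs with h h'
  · rw [h]
    omega
  · rw [h', h3]
  · exact hv k (by omega)

end Pool.Agent.Helper74.LineArr
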